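import Pool.Agent.P.MP_e4fe5e_lc.Geom
import Pool.Agent.Lib.PolyTime.Cook

/-! The composition algorithm. -/

namespace Pool.Agent.P.MP_e4fe5e_lc

open Pool.Agent.Lib.PolyTime

/-- Scaled point plus a point of the moment curve. -/
def pertZ (M : ℕ) (q : (ℤ × ℤ × ℤ) × ℕ) : ℤ × ℤ × ℤ :=
  (M * q.1.1 + q.2, M * q.1.2.1 + q.2 * q.2, M * q.1.2.2 + q.2 * q.2 * q.2)

/-- An integer point as a rational point. -/
def toQ (p : ℤ × ℤ × ℤ) : Pt := ((p.1 : ℚ), (p.2.1 : ℚ), (p.2.2 : ℚ))

/-- Perturbation to general position. -/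
def perturb (L : List (ℤ × ℤ × ℤ)) : List Pt :=
  L.zipIdx.map fun q => toQ (pertZ (100 * (L.length + 1) ^ 6) q)

theorem det4_toQ (a b c d : ℤ × ℤ × ℤ) :
    det4 (toQ a) (toQ b) (toQ c) (toQ d) = ((det4 a b c d : ℤ) : ℚ) := by
  simp [det4, toQ]

theorem det4_pertZ {n M : ℕ} (hM : (n + 1) ^ 6 ≤ M) {a b c d : (ℤ × ℤ × ℤ) × ℕ} (ha : a.2 < n)
    (hb : b.2 < n) (hc : c.2 < n) (hd : d.2 < n) (h : [a.2, b.2, c.2, d.2].Nodup) :
    det4 (pertZ M a) (pertZ M b) (pertZ M c) (pertZ M d) ≠ 0 := by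
  intro h0
  simp only [List.nodup_cons, List.mem_cons, List.not_mem_nil, or_false, not_or] at h
  obtain ⟨⟨h1, h2, h3⟩, ⟨h4, h5⟩, h6, -⟩ := h
  set V : ℤ := ((b.2 : ℤ) - a.2) * (c.2 - a.2) * (d.2 - a.2) * (c.2 - b.2) * (d.2 - b.2) *
    (d.2 - c.2) with hV
  have e : ((det4 (pertZ M a) (pertZ M b) (pertZ M c) (pertZ M d) - V : ℤ) : ZMod M) = 0 := by
    simp only [det4, pertZ, hV]
    push_cast
    simp only [ZMod.natCast_self, zero_mul, zero_add]
    ring
  rw [h0, zero_sub, ZMod.intCast_zmod_eq_zero_iff_dvd, Int.dvd_neg] at e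
  have hne : V ≠ 0 := by
    simp only [hV, mul_ne_zero_iff, sub_ne_zero, ne_eq, Nat.cast_inj]
    omega
  have f : ∀ x y : ℕ, x < n → y < n → |(x : ℤ) - y| ≤ n := fun x y _ _ => by rw [abs_le]; omega
  have hlt : |V| ≤ (n : ℤ) * n * n * n * n * n := by
    simp only [hV, abs_mul]
    gcongr <;> exact f _ _ ‹_› ‹_›
  have h7 := Int.le_of_dvd (abs_pos.2 hne) ((dvd_abs _ _).2 e)
  have h8 : ((n : ℤ) + 1) ^ 6 ≤ M := by exact_mod_cast hM
  have h9 : (n : ℤ) ^ 6 < ((n : ℤ) + 1) ^ 6 := by gcongr; omega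
  linarith

theorem pertZ_inj {n M : ℕ} (hM : n ≤ M) {a b : (ℤ × ℤ × ℤ) × ℕ} (ha : a.2 < n) (hb : b.2 < n)
    (h : toQ (pertZ M a) = toQ (pertZ M b)) : a.2 = b.2 := by
  have h1 := congrArg Prod.fst h
  simp only [toQ, pertZ, Int.cast_inj] at h1
  have h2 := congrArg (· % (M : ℤ)) h1
  simp only [Int.mul_add_emod_self_left] at h2
  rw [Int.emod_eq_of_lt (by omega) (by omega), Int.emod_eq_of_lt (by omega) (by omega)] at h2
  omega

theorem perturb_spec {ι : Type} [DecidableEq ι] {labs : List ι} (hn : labs.Nodup)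
    (pos : ι → ℤ × ℤ × ℤ) : (perturb (labs.map pos)).Nodup ∧ GP (perturb (labs.map pos)) ∧
    ∃ X : ι → ℝ × ℝ × ℝ, (∀ l ∈ labs, Close (X l) (pos l)) ∧ ∀ k,
      Yes (perturb (labs.map pos), k) ↔
        ∃ J : Finset ι, (∀ l ∈ J, l ∈ labs) ∧ J.card = k ∧ Supp X J := by
  classical
  set n := labs.length with hn'
  set M := 100 * (n + 1) ^ 6 with hM
  let P : ι → Pt := fun l => toQ (pertZ M (pos l, labs.idxOf l))
  have e : perturb (labs.map pos) = labs.map P := by
    refine List.ext_getElem (by simp [perturb]) fun i h1 h2 => ?_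
    simp [perturb, P, hM, hn', hn.idxOf_getElem]
  have hM1 : (n + 1) ^ 6 ≤ M := by omega
  have hM2 : n ≤ M := le_trans (le_trans (Nat.le_succ n) (Nat.le_self_pow (by norm_num) _)) hM1
  have idx : ∀ l ∈ labs, labs.idxOf l < n := fun l hl => List.idxOf_lt_length_iff.2 hl
  have inj : ∀ l ∈ labs, ∀ l' ∈ labs, P l = P l' → l = l' := fun l hl l' hl' h =>
    (List.idxOf_inj hl).1 (pertZ_inj hM2 (idx l hl) (idx l' hl') h)
  have hM0 : (0 : ℝ) < M := by rw [hM]; positivity
  rw [e]
  refine ⟨List.Nodup.map_on inj hn, ?_, fun l => (M : ℝ)⁻¹ • toReal (P l), fun l hl => ?_,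
    fun k => ?_⟩
  · intro a ha b hb c hc d hd h
    obtain ⟨a, ha', rfl⟩ := List.mem_map.1 ha
    obtain ⟨b, hb', rfl⟩ := List.mem_map.1 hb
    obtain ⟨c, hc', rfl⟩ := List.mem_map.1 hc
    obtain ⟨d, hd', rfl⟩ := List.mem_map.1 hd
    simp only [P, det4_toQ, ne_eq, Int.cast_eq_zero]
    refine det4_pertZ hM1 (idx a ha') (idx b hb') (idx c hc') (idx d hd') ?_
    have h' : [a, b, c, d].Nodup := List.Nodup.of_map P h
    refine List.Nodup.map_on (f := fun l => labs.idxOf l) (fun x hx y _ hxy => ?_) h'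
    refine (List.idxOf_inj ?_).1 hxy
    simp only [List.mem_cons, List.not_mem_nil, or_false] at hx
    rcases hx with rfl | rfl | rfl | rfl <;> assumption
  · have h1 : ((labs.idxOf l : ℕ) : ℝ) ≤ n + 1 := by
      have := idx l hl
      exact_mod_cast (by omega : labs.idxOf l ≤ n + 1)
    have h2 : (1 : ℝ) ≤ n + 1 := by simp
    have h0 : (0 : ℝ) ≤ (labs.idxOf l : ℕ) := by positivity
    have key : ∀ (p y : ℝ) (k : ℕ), k ≤ 6 → 0 ≤ y → y ≤ (n + 1) ^ k →
        |(M : ℝ)⁻¹ * (M * p + y) - p| ≤ 1 / 100 := by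
      intro p y k hk y0 y1
      have : (M : ℝ)⁻¹ * (M * p + y) - p = y / M := by field_simp; ring
      rw [this, abs_of_nonneg (by positivity), div_le_iff₀ hM0, hM]
      have := pow_le_pow_right₀ h2 hk
      push_cast
      linarith
    refine ⟨?_, ?_, ?_⟩
    · simpa [P, toReal, toQ, pertZ] using key (pos l).1 _ 1 (by norm_num) h0 (by simpa using h1)
    · simpa [P, toReal, toQ, pertZ] using key (pos l).2.1 _ 2 (by norm_num) (mul_nonneg h0 h0)
        (by rw [pow_two]; gcongr)
    · simpa [P, toReal, toQ, pertZ] using key (pos l).2.2 _ 3 (by norm_num)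
        (mul_nonneg (mul_nonneg h0 h0) h0) (by rw [pow_succ, pow_two]; gcongr)
  · have evs : ∀ α β γ x y, ev α β γ ((M : ℝ)⁻¹ • x) < ev α β γ ((M : ℝ)⁻¹ • y) ↔
        ev α β γ x < ev α β γ y := by
      intro α β γ x y
      have : ∀ z, ev α β γ ((M : ℝ)⁻¹ • z) = (M : ℝ)⁻¹ * ev α β γ z := fun z => by
        simp [ev]; ring
      rw [this, this, mul_lt_mul_iff_right₀ (inv_pos.2 hM0)]
    have key : ∀ J : Finset ι, (∀ l ∈ J, l ∈ labs) → (ConvexPosition (toReal '' (J.image P)) ↔
        Supp (fun l => (M : ℝ)⁻¹ • toReal (P l)) J) := by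
      intro J hJ
      rw [convexPosition_iff ((Finset.finite_toSet _).image _), Finset.coe_image, Set.image_image]
      simp only [Supp, evs, Set.forall_mem_image, Finset.mem_coe]
      refine forall₂_congr fun p hp => exists₃_congr fun α β γ => forall₂_congr fun q hq => ?_
      refine imp_congr_left (not_congr ⟨fun h => inj q (hJ q hq) p (hJ p hp) (toReal_inj h), ?_⟩)
      rintro rfl; rfl
    have card : ∀ J : Finset ι, (∀ l ∈ J, l ∈ labs) → (J.image P).card = J.card := fun J hJ =>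
      Finset.card_image_of_injOn fun l hl l' hl' => inj l (hJ l hl) l' (hJ l' hl')
    constructor
    · rintro ⟨Q, hQ, hc, hp⟩
      have hJ : ∀ l ∈ labs.toFinset.filter (P · ∈ Q), l ∈ labs := fun l hl =>
        List.mem_toFinset.1 (Finset.mem_filter.1 hl).1
      have : (labs.toFinset.filter (P · ∈ Q)).image P = Q := by
        ext q
        simp only [Finset.mem_image, Finset.mem_filter, List.mem_toFinset]
        refine ⟨by rintro ⟨l, hl, rfl⟩; exact hl.2, fun hq => ?_⟩
        obtain ⟨l, hl, rfl⟩ := List.mem_map.1 (hQ q hq)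
        exact ⟨l, ⟨hl, hq⟩, rfl⟩
      exact ⟨_, hJ, by rw [← card _ hJ, this, hc], (key _ hJ).1 (by rwa [this])⟩
    · rintro ⟨J, hJ, hc, hs⟩
      refine ⟨J.image P, fun q hq => ?_, by rw [card J hJ, hc], (key J hJ).2 hs⟩
      obtain ⟨l, hl, rfl⟩ := Finset.mem_image.1 hq
      exact List.mem_map_of_mem (hJ l hl)

/-- The variables of a formula, with repetitions. -/
def vars (φ : CNF) : List ℕ := φ.flatten.map Prod.fst

/-- Does the literal of column `c` occur in the clause of row `r`? -/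
def tapOf (φ : CNF) (r c : ℕ) : Bool :=
  decide (φ.length < r ∨ (((vars φ).getD (c / 2) 0, decide (c % 2 = 0)) ∈ φ.getD (r - 1) [] ∧
    ¬ (vars φ).getD (c / 2) 0 ∈ (vars φ).take (c / 2)))

theorem idx_unique {l : List ℕ} {i x : ℕ} (hx : x ∈ l) (h1 : l.getD i 0 = x) (h2 : x ∉ l.take i) :
    l.idxOf x = i := by
  induction l generalizing i with
  | nil => simp at hx
  | cons y l ih =>
    cases i with
    | zero => simp at h1; simp [h1]
    | succ i =>
      simp only [List.take_succ_cons, List.mem_cons, not_or] at h2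
      rw [List.idxOf_cons_ne _ (Ne.symm h2.1),
        ih ((List.mem_cons.1 hx).resolve_left h2.1) (by simpa using h1) h2.2]

theorem idx_spec {l : List ℕ} {x : ℕ} (hx : x ∈ l) :
    l.getD (l.idxOf x) 0 = x ∧ x ∉ l.take (l.idxOf x) := by
  induction l with
  | nil => simp at hx
  | cons y l ih =>
    by_cases h : y = x
    · simp [h]
    · have := ih ((List.mem_cons.1 hx).resolve_left (Ne.symm h))
      rw [List.idxOf_cons_ne _ h]
      simpa [Ne.symm h] using this

theorem gridSat_iff {N : ℕ} {φ : CNF} (hN : 1 ≤ N) (h1 : φ.length ≤ N)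
    (h2 : (vars φ).length ≤ N) : GridSat N (tapOf φ) ↔ φ.Sat := by
  have mv : ∀ cl ∈ φ, ∀ l ∈ cl, l.1 ∈ vars φ := fun cl hcl l hl =>
    List.mem_map_of_mem (List.mem_flatten.2 ⟨cl, hcl, hl⟩)
  constructor
  · rintro ⟨v, hv⟩
    refine ⟨fun x => v ((vars φ).idxOf x), fun cl hcl => ?_⟩
    obtain ⟨i, hi, rfl⟩ := List.getElem_of_mem hcl
    obtain ⟨c, -, ht, hc⟩ := hv (i + 1) (by omega) (by omega)
    obtain ⟨t1, t2⟩ := (of_decide_eq_true ht).resolve_left (by omega)
    rw [Nat.add_sub_cancel, List.getD_eq_getElem _ _ hi] at t1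
    refine ⟨_, t1, ?_⟩
    dsimp only
    rw [idx_unique (mv _ hcl _ t1) rfl t2, Bool.eq_iff_iff, hc, decide_eq_true_iff]
  · rintro ⟨w, hw⟩
    refine ⟨fun i => w ((vars φ).getD i 0), fun r r1 r2 => ?_⟩
    by_cases hr : φ.length < r
    · by_cases h0 : w ((vars φ).getD 0 0) = true
      · exact ⟨0, by omega, decide_eq_true (Or.inl hr), by simpa using h0⟩
      · exact ⟨1, by omega, decide_eq_true (Or.inl hr), by simpa using h0⟩
    · have hi : r - 1 < φ.length := by omega
      obtain ⟨⟨x, b⟩, hl, hb⟩ := hw _ (List.getElem_mem hi)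
      have hx := mv _ (List.getElem_mem hi) _ hl
      obtain ⟨s1, s2⟩ := idx_spec hx
      have s3 := List.idxOf_lt_length_iff.2 hx
      dsimp only at s1 s2 s3 hb
      have e1 : (2 * (vars φ).idxOf x + (!b).toNat) / 2 = (vars φ).idxOf x := by
        have := Bool.toNat_le (!b); omega
      have e2 : (2 * (vars φ).idxOf x + (!b).toNat) % 2 = 0 ↔ b = true := by
        cases b <;> simp
      refine ⟨2 * (vars φ).idxOf x + (!b).toNat, by have := Bool.toNat_le (!b); omega,
        decide_eq_true (Or.inr ?_), ?_⟩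
      · rw [e1, s1, List.getD_eq_getElem _ _ hi]
        refine ⟨?_, s2⟩
        rwa [show decide ((2 * (vars φ).idxOf x + (!b).toNat) % 2 = 0) = b by simp only [e2]; simp]
      · rw [e1, e2]
        dsimp only
        rw [s1, hb]

/-- Cartesian product of lists. -/
def prodL {α β : Type} (l : List α) (l' : List β) : List (α × β) :=
  l.flatMap fun a => l'.map fun b => (a, b)

/-- Labels of the base points. -/
def baseLabs (W : ℕ) : List ((Bool × Bool) × ℕ) :=
  prodL (prodL [false, true] [false, true]) ((List.range W).map (· + 1))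

/-- Labels of the cluster points. -/
def clLabs (N t : ℕ) : List (ℕ × Site) :=
  prodL (List.range t) ((prodL (List.range (N + 1)) (prodL (List.range (2 * N))
    (List.range 23))).filter fun s => decide (¬ Rem N s))

theorem mem_prodL {α β : Type} {l : List α} {l' : List β} {p : α × β} :
    p ∈ prodL l l' ↔ p.1 ∈ l ∧ p.2 ∈ l' := List.mem_product

theorem nodup_prodL {α β : Type} {l : List α} {l' : List β} (h : l.Nodup) (h' : l'.Nodup) :
    (prodL l l').Nodup := h.product h'

/-- Number of points of one base group. -/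
def pW (N j : ℕ) : ℕ := 64 * (j + 1) ^ 3 * (46 * N * (N + 1)) + 1

/-- Horizontal stretch of a cluster. -/
def pS (N j : ℕ) : ℕ := 1000 * (100 * (N + 1)) * 256 ^ j

/-- Scale of the skeleton. -/
def pL (N j : ℕ) : ℕ := 1000 * pS N j * (100 * (N + 1)) + pW N j * pW N j

/-- The integer points before perturbation. -/
def pre (N j : ℕ) (φs : List CNF) : List (ℤ × ℤ × ℤ) :=
  (baseLabs (pW N j)).map (basePos (pW N j) (40 * pL N j * 256 ^ j * 4096 ^ j)) ++
  (clLabs N φs.length).map fun l => clPos j (pS N j) (pL N j) (pL N j * 4096 ^ j) l.1 l.2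
    (sd (tapOf (φs.getD l.1 [])) l.2)

/-- The parameter of the composed instance. -/
def pK (N j : ℕ) : ℕ := 4 * pW N j + 36 * N * (N + 1)

/-- The composed instance. -/
def comp (N : ℕ) (φs : List CNF) : Instance :=
  (perturb (pre N φs.length.size φs), pK N φs.length.size)

theorem length_vars_le (φ : CNF) : (vars φ).length ≤ sz φ := by
  rw [vars, List.length_map]
  induction φ with
  | nil => simp
  | cons c φ ih =>
    have := length_le_sz c
    simp only [List.flatten_cons, List.length_append, sz_cons]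
    omega

theorem comp_spec {N : ℕ} {φs : List CNF} (hN : 1 ≤ N) (h : ∀ φ ∈ φs, sz φ ≤ N) :
    Valid (comp N φs) ∧ (Yes (comp N φs) ↔ ∃ φ ∈ φs, φ.Sat) := by
  classical
  set j := φs.length.size
  have hp : Par N j (pW N j) (pS N j) (pL N j) (40 * pL N j * 256 ^ j * 4096 ^ j)
      (pL N j * 4096 ^ j) :=
    ⟨hN, Nat.lt_succ_self _, rfl, Nat.le_add_right _ _, Nat.le_add_left _ _, rfl, rfl⟩
  let labs : List Lab := (baseLabs (pW N j)).map Sum.inl ++ (clLabs N φs.length).map Sum.inr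
  have hn : labs.Nodup := by
    refine List.Nodup.append (List.Nodup.map Sum.inl_injective ?_)
      (List.Nodup.map Sum.inr_injective ?_) (by simp [List.disjoint_left])
    · exact nodup_prodL (by decide) (List.nodup_range.map (add_left_injective 1))
    · exact nodup_prodL List.nodup_range (List.Nodup.filter _
        (nodup_prodL List.nodup_range (nodup_prodL List.nodup_range List.nodup_range)))
  have hm : ∀ l, l ∈ labs ↔ Ok N (pW N j) φs.length l := by
    rintro (⟨⟨b₁, b₂⟩, i⟩ | l)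
    · simp only [labs, baseLabs, mem_prodL, Ok, List.mem_append, List.mem_map, Sum.inl.injEq,
        exists_eq_right, reduceCtorEq, and_false, exists_false, or_false, List.mem_range]
      constructor
      · rintro ⟨-, a, ha, rfl⟩
        omega
      · intro hi
        exact ⟨by cases b₁ <;> cases b₂ <;> simp, i - 1, by omega, by omega⟩
    · simp only [labs, clLabs, mem_prodL, Ok, InGrid, Nat.lt_succ_iff, List.mem_append,
        List.mem_map, Sum.inr.injEq, exists_eq_right, reduceCtorEq, and_false, exists_false,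
        false_or, List.mem_range, List.mem_filter, decide_eq_true_iff]
      simp only [and_assoc]
  have e : pre N j φs = labs.map (pos j (pW N j) (pS N j) (pL N j)
      (40 * pL N j * 256 ^ j * 4096 ^ j) (pL N j * 4096 ^ j) fun a => tapOf (φs.getD a [])) := by
    simp only [labs, List.map_append, List.map_map]
    rfl
  obtain ⟨h1, h2, X, hX, hY⟩ := perturb_spec hn (pos j (pW N j) (pS N j) (pL N j)
    (40 * pL N j * 256 ^ j * 4096 ^ j) (pL N j * 4096 ^ j) fun a => tapOf (φs.getD a []))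
  rw [← e] at h1 h2 hY
  have hX' := fun l hl => hX l ((hm l).2 hl)
  have hs : ∀ a (ha : a < φs.length), GridSat N (tapOf (φs.getD a [])) ↔ φs[a].Sat := by
    intro a ha
    rw [List.getD_eq_getElem _ _ ha]
    have := h _ (List.getElem_mem ha)
    exact gridSat_iff hN ((length_le_sz _).trans this) ((length_vars_le _).trans this)
  refine ⟨⟨h1, (gp_iff _).2 h2, by simp [comp, pK, pW]⟩, (hY _).trans ⟨?_, ?_⟩⟩
  · rintro ⟨J, hJ, hc, hs'⟩
    obtain ⟨a, ha, hg⟩ := geom_no hp (Nat.lt_size_self _).le hX' (fun l hl => (hm l).1 (hJ l hl))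
      hc hs'
    exact ⟨_, List.getElem_mem ha, (hs a ha).1 hg⟩
  · rintro ⟨φ, hφ, hs'⟩
    obtain ⟨a, ha, rfl⟩ := List.getElem_of_mem hφ
    obtain ⟨J, hJ, hc, hs''⟩ := geom_yes hp hX' ha ((hs a ha).2 hs')
    exact ⟨J, fun l hl => (hm l).2 (hJ l hl), hc, hs''⟩

end Pool.Agent.P.MP_e4fe5e_lc
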