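import Pool.Agent.P.MP_e4fe5e_lc.Defs

/-! A finite test for convex position of points in general position. -/

namespace Pool.Agent.P.MP_e4fe5e_lc.Sep

/-- Six times the signed volume of a tetrahedron. -/
def vol {K : Type} [Field K] (a b c d : K × K × K) : K :=
  (b.1 - a.1) * ((c.2.1 - a.2.1) * (d.2.2 - a.2.2) - (c.2.2 - a.2.2) * (d.2.1 - a.2.1))
    - (b.2.1 - a.2.1) * ((c.1 - a.1) * (d.2.2 - a.2.2) - (c.2.2 - a.2.2) * (d.1 - a.1))
    + (b.2.2 - a.2.2) * ((c.1 - a.1) * (d.2.1 - a.2.1) - (c.2.1 - a.2.1) * (d.1 - a.1))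

theorem vol_cast (a b c d : Pt) :
    ((vol a b c d : ℚ) : ℝ) = vol (toReal a) (toReal b) (toReal c) (toReal d) := by
  simp [vol, toReal]

theorem toReal_inj : Function.Injective toReal := by
  rintro ⟨a, b, c⟩ ⟨a', b', c'⟩ h
  simp only [toReal, Prod.mk.injEq, Rat.cast_inj] at h
  simp [h.1, h.2.1, h.2.2]

theorem onPlane_of_vol {a b c d : ℝ × ℝ × ℝ} (h : vol a b c d = 0) : OnPlane a b c d := by
  have hd : (!![b.1 - a.1, b.2.1 - a.2.1, b.2.2 - a.2.2; c.1 - a.1, c.2.1 - a.2.1, c.2.2 - a.2.2;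
      d.1 - a.1, d.2.1 - a.2.1, d.2.2 - a.2.2] : Matrix (Fin 3) (Fin 3) ℝ).det = 0 := by
    rw [Matrix.det_fin_three, ← h]
    simp [vol]
    ring
  obtain ⟨v, hv, hm⟩ := Matrix.exists_mulVec_eq_zero_iff.2 hd
  have h0 := congrFun hm 0
  have h1 := congrFun hm 1
  have h2 := congrFun hm 2
  simp [Matrix.mulVec, dotProduct, Fin.sum_univ_three] at h0 h1 h2
  refine ⟨v 0, v 1, v 2, v 0 * a.1 + v 1 * a.2.1 + v 2 * a.2.2, ?_, ?_⟩
  · by_contra hc
    push Not at hc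
    apply hv
    funext i
    fin_cases i
    exacts [hc.1, hc.2.1, hc.2.2]
  · intro p hp
    simp only [List.mem_cons, List.not_mem_nil, or_false] at hp
    rcases hp with rfl | rfl | rfl | rfl <;> linarith

/-- `p` is the point with ratio `t` on the segment from `a` to `b`. -/
def AtRatio (p a b : Pt) (t : ℚ) : Prop :=
  0 ≤ t ∧ t ≤ 1 ∧ p.1 = a.1 + t * (b.1 - a.1) ∧ p.2.1 = a.2.1 + t * (b.2.1 - a.2.1) ∧
    p.2.2 = a.2.2 + t * (b.2.2 - a.2.2)

def InSeg (p a b : Pt) : Prop :=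
  AtRatio p a b ((p.1 - a.1) / (b.1 - a.1)) ∨ AtRatio p a b ((p.2.1 - a.2.1) / (b.2.1 - a.2.1)) ∨
    AtRatio p a b ((p.2.2 - a.2.2) / (b.2.2 - a.2.2))

def InTet (p a b c d : Pt) : Prop :=
  vol a b c d ≠ 0 ∧ 0 ≤ vol p b c d / vol a b c d ∧ 0 ≤ vol a p c d / vol a b c d ∧
    0 ≤ vol a b p d / vol a b c d ∧ 0 ≤ vol a b c p / vol a b c d

/-- Some point of the list is on a segment or in a tetrahedron spanned by other points. -/
def Bad (Q : List Pt) : Prop :=
  ∃ p ∈ Q, ∃ a ∈ Q, ∃ b ∈ Q, a ≠ p ∧ b ≠ p ∧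
    (InSeg p a b ∨ ∃ c ∈ Q, ∃ d ∈ Q, c ≠ p ∧ d ≠ p ∧ InTet p a b c d)

theorem mem_hull_seg {s : Set (ℝ × ℝ × ℝ)} {p a b : Pt} {t : ℚ} (h : AtRatio p a b t)
    (ha : toReal a ∈ s) (hb : toReal b ∈ s) : toReal p ∈ convexHull ℝ s := by
  obtain ⟨h0, h1, e1, e2, e3⟩ := h
  have h0' : (0 : ℝ) ≤ t := by exact_mod_cast h0
  have h1' : (t : ℝ) ≤ 1 := by exact_mod_cast h1
  have := convex_convexHull ℝ s (subset_convexHull ℝ s ha) (subset_convexHull ℝ s hb)
    (a := 1 - t) (b := t) (by linarith) h0' (by ring)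
  have e : toReal p = (1 - (t : ℝ)) • toReal a + (t : ℝ) • toReal b := by
    simp only [toReal, e1, e2, e3, Prod.smul_mk, Prod.mk_add_mk, smul_eq_mul, Prod.mk.injEq]
    push_cast
    refine ⟨by ring, by ring, by ring⟩
  rwa [e]

theorem mem_hull_tet {s : Set (ℝ × ℝ × ℝ)} {p a b c d : Pt} (h : InTet p a b c d)
    (ha : toReal a ∈ s) (hb : toReal b ∈ s) (hc : toReal c ∈ s) (hd : toReal d ∈ s) :
    toReal p ∈ convexHull ℝ s := by
  obtain ⟨h0, h1, h2, h3, h4⟩ := h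
  have h0' : vol (toReal a) (toReal b) (toReal c) (toReal d) ≠ 0 := by
    rw [← vol_cast]; exact_mod_cast h0
  have cst : ∀ x y : ℚ, 0 ≤ x / y → (0 : ℝ) ≤ (x : ℝ) / (y : ℝ) := fun x y h => by
    exact_mod_cast h
  have h1' := cst _ _ h1
  have h2' := cst _ _ h2
  have h3' := cst _ _ h3
  have h4' := cst _ _ h4
  simp only [vol_cast] at h1' h2' h3' h4'
  generalize toReal a = A at *
  generalize toReal b = B at *
  generalize toReal c = C at *
  generalize toReal d = D at *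
  generalize toReal p = P at *
  refine mem_convexHull_of_exists_fintype
    ![vol P B C D / vol A B C D, vol A P C D / vol A B C D, vol A B P D / vol A B C D,
      vol A B C P / vol A B C D] ![A, B, C, D] ?_ ?_ ?_ ?_
  · intro i
    fin_cases i
    exacts [h1', h2', h3', h4']
  · simp only [Fin.sum_univ_four, Matrix.cons_val_zero, Matrix.cons_val_one, Matrix.cons_val]
    field_simp
    simp only [vol]
    ring
  · intro i
    fin_cases i
    exacts [ha, hb, hc, hd]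
  · simp only [Fin.sum_univ_four, Matrix.cons_val_zero, Matrix.cons_val_one, Matrix.cons_val]
    refine Prod.ext ?_ (Prod.ext ?_ ?_) <;>
      simp only [Prod.fst_add, Prod.snd_add, Prod.smul_fst, Prod.smul_snd, smul_eq_mul] <;>
      field_simp <;> simp only [vol] <;> ring

theorem not_convex_of_bad {Q : List Pt} (h : Bad Q) :
    ¬ ConvexPosition (toReal '' {q | q ∈ Q}) := by
  obtain ⟨p, hp, a, ha, b, hb, hap, hbp, h⟩ := h
  have key : ∀ x ∈ Q, x ≠ p → toReal x ∈ toReal '' {q | q ∈ Q} \ {toReal p} := fun x hx hxp =>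
    ⟨⟨x, hx, rfl⟩, fun e => hxp (toReal_inj e)⟩
  intro hc
  refine hc (toReal p) ⟨p, hp, rfl⟩ ?_
  rcases h with (h | h | h) | ⟨c, hc, d, hd, hcp, hdp, h⟩
  · exact mem_hull_seg h (key a ha hap) (key b hb hbp)
  · exact mem_hull_seg h (key a ha hap) (key b hb hbp)
  · exact mem_hull_seg h (key a ha hap) (key b hb hbp)
  · exact mem_hull_tet h (key a ha hap) (key b hb hbp) (key c hc hcp) (key d hd hdp)

theorem inSeg_of {p a b : Pt} (hab : a ≠ b) {u v : ℝ} (hu : 0 ≤ u) (hv : 0 ≤ v) (h1 : u + v = 1)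
    (e : u • toReal a + v • toReal b = toReal p) : InSeg p a b := by
  obtain rfl : u = 1 - v := by linarith
  have e1 := congrArg (·.1) e
  have e2 := congrArg (·.2.1) e
  have e3 := congrArg (·.2.2) e
  simp only [toReal, Prod.smul_mk, Prod.mk_add_mk, smul_eq_mul] at e1 e2 e3
  have key : ∀ t : ℚ, (t : ℝ) = v → AtRatio p a b t := by
    rintro t rfl
    refine ⟨by exact_mod_cast hv, ?_, ?_, ?_, ?_⟩
    · have : (t : ℝ) ≤ 1 := by linarith
      exact_mod_cast this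
    · have : (p.1 : ℝ) = a.1 + t * (b.1 - a.1) := by linarith
      exact_mod_cast this
    · have : (p.2.1 : ℝ) = a.2.1 + t * (b.2.1 - a.2.1) := by linarith
      exact_mod_cast this
    · have : (p.2.2 : ℝ) = a.2.2 + t * (b.2.2 - a.2.2) := by linarith
      exact_mod_cast this
  have div : ∀ x y z : ℚ, y ≠ z → (1 - v) * (y : ℝ) + v * z = x →
      (((x - y) / (z - y) : ℚ) : ℝ) = v := by
    intro x y z hyz h
    have : (z : ℝ) - y ≠ 0 := by
      have : (z - y : ℚ) ≠ 0 := sub_ne_zero.2 hyz.symm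
      exact_mod_cast this
    push_cast
    rw [div_eq_iff this]
    linarith
  by_cases c1 : a.1 = b.1
  · by_cases c2 : a.2.1 = b.2.1
    · have c3 : a.2.2 ≠ b.2.2 := fun c3 => hab (Prod.ext c1 (Prod.ext c2 c3))
      exact Or.inr (Or.inr (key _ (div _ _ _ c3 e3)))
    · exact Or.inr (Or.inl (key _ (div _ _ _ c2 e2)))
  · exact Or.inl (key _ (div _ _ _ c1 e1))

theorem inTet_of {p a b c d : Pt} (h0 : vol (toReal a) (toReal b) (toReal c) (toReal d) ≠ 0)
    {u v w z : ℝ} (hu : 0 ≤ u) (hv : 0 ≤ v) (hw : 0 ≤ w) (hz : 0 ≤ z) (h1 : u + (v + (w + z)) = 1)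
    (e : u • toReal a + (v • toReal b + (w • toReal c + z • toReal d)) = toReal p) :
    InTet p a b c d := by
  have cst : ∀ x y : ℚ, (0 : ℝ) ≤ (x : ℝ) / (y : ℝ) → 0 ≤ x / y := fun x y h => by
    exact_mod_cast h
  obtain rfl : u = 1 - v - w - z := by linarith
  refine ⟨fun h => h0 (by rw [← vol_cast, h]; simp), cst _ _ ?_, cst _ _ ?_, cst _ _ ?_,
    cst _ _ ?_⟩ <;> simp only [vol_cast] <;> rw [← e]
  · refine hu.trans_eq ((eq_div_iff h0).2 ?_)
    simp only [vol, Prod.fst_add, Prod.snd_add, Prod.smul_fst, Prod.smul_snd, smul_eq_mul]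
    ring
  · refine hv.trans_eq ((eq_div_iff h0).2 ?_)
    simp only [vol, Prod.fst_add, Prod.snd_add, Prod.smul_fst, Prod.smul_snd, smul_eq_mul]
    ring
  · refine hw.trans_eq ((eq_div_iff h0).2 ?_)
    simp only [vol, Prod.fst_add, Prod.snd_add, Prod.smul_fst, Prod.smul_snd, smul_eq_mul]
    ring
  · refine hz.trans_eq ((eq_div_iff h0).2 ?_)
    simp only [vol, Prod.fst_add, Prod.snd_add, Prod.smul_fst, Prod.smul_snd, smul_eq_mul]
    ring

theorem bad_of_not_convex {Q : List Pt}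
    (hg : ∀ a ∈ Q, ∀ b ∈ Q, ∀ c ∈ Q, ∀ d ∈ Q, [a, b, c, d].Nodup →
      ¬ OnPlane (toReal a) (toReal b) (toReal c) (toReal d))
    (h : ¬ ConvexPosition (toReal '' {q | q ∈ Q})) : Bad Q := by
  classical
  simp only [ConvexPosition, not_forall, not_not] at h
  obtain ⟨_, ⟨p, hp, rfl⟩, h⟩ := h
  rw [convexHull_eq_union] at h
  simp only [Set.mem_iUnion] at h
  obtain ⟨t, hts, hai, hmem⟩ := h
  have hcard : t.card ≤ 4 := by
    have h1 := hai.card_le_finrank_succ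
    have h2 : Module.finrank ℝ (vectorSpan ℝ (Set.range ((↑) : t → ℝ × ℝ × ℝ))) ≤ 3 :=
      (Submodule.finrank_le _).trans (by simp)
    simp only [Fintype.card_coe] at h1
    omega
  have key : ∀ x ∈ t, ∃ a ∈ Q, a ≠ p ∧ toReal a = x := fun x hx => by
    obtain ⟨⟨a, ha, rfl⟩, hne⟩ := hts hx
    exact ⟨a, ha, fun e => hne (by rw [e]; rfl), rfl⟩
  obtain ⟨w, hw0, hw1, hw⟩ := Finset.mem_convexHull'.1 hmem
  have hc : t.card = 0 ∨ t.card = 1 ∨ t.card = 2 ∨ t.card = 3 ∨ t.card = 4 := by omega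
  rcases hc with hc | hc | hc | hc | hc
  · rw [Finset.card_eq_zero] at hc
    simp [hc] at hw1
  · obtain ⟨A, rfl⟩ := Finset.card_eq_one.1 hc
    obtain ⟨a, -, hap, rfl⟩ := key A (by simp)
    rw [Finset.sum_singleton] at hw1 hw
    rw [hw1, one_smul] at hw
    exact absurd (toReal_inj hw) hap
  · obtain ⟨A, B, hAB, rfl⟩ := Finset.card_eq_two.1 hc
    obtain ⟨a, ha, hap, rfl⟩ := key A (by simp)
    obtain ⟨b, hb, hbp, rfl⟩ := key B (by simp)
    rw [Finset.sum_pair hAB] at hw1 hw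
    exact ⟨p, hp, a, ha, b, hb, hap, hbp, Or.inl (inSeg_of (fun e => hAB (by rw [e]))
      (hw0 _ (by simp)) (hw0 _ (by simp)) hw1 hw)⟩
  · obtain ⟨A, B, C, hAB, hAC, hBC, rfl⟩ := Finset.card_eq_three.1 hc
    obtain ⟨a, ha, hap, rfl⟩ := key A (by simp)
    obtain ⟨b, hb, hbp, rfl⟩ := key B (by simp)
    obtain ⟨c, hc', hcp, rfl⟩ := key C (by simp)
    rw [Finset.sum_insert (by simp [hAB, hAC]), Finset.sum_pair hBC] at hw1 hw
    have hab : a ≠ b := fun e => hAB (by rw [e])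
    have hac : a ≠ c := fun e => hAC (by rw [e])
    have hbc : b ≠ c := fun e => hBC (by rw [e])
    refine absurd (onPlane_of_vol ?_) (hg a ha b hb c hc' p hp (by simp [*]))
    have e : w (toReal a) = 1 - w (toReal b) - w (toReal c) := by linarith
    rw [← hw, e]
    simp only [vol, Prod.fst_add, Prod.snd_add, Prod.smul_fst, Prod.smul_snd, smul_eq_mul]
    ring
  · obtain ⟨A, B, C, D, hAB, hAC, hAD, hBC, hBD, hCD, rfl⟩ := Finset.card_eq_four.1 hc
    obtain ⟨a, ha, hap, rfl⟩ := key A (by simp)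
    obtain ⟨b, hb, hbp, rfl⟩ := key B (by simp)
    obtain ⟨c, hc', hcp, rfl⟩ := key C (by simp)
    obtain ⟨d, hd, hdp, rfl⟩ := key D (by simp)
    rw [Finset.sum_insert (by simp [hAB, hAC, hAD]), Finset.sum_insert (by simp [hBC, hBD]),
      Finset.sum_pair hCD] at hw1 hw
    have hab : a ≠ b := fun e => hAB (by rw [e])
    have hac : a ≠ c := fun e => hAC (by rw [e])
    have had : a ≠ d := fun e => hAD (by rw [e])
    have hbc : b ≠ c := fun e => hBC (by rw [e])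
    have hbd : b ≠ d := fun e => hBD (by rw [e])
    have hcd : c ≠ d := fun e => hCD (by rw [e])
    have h0 : vol (toReal a) (toReal b) (toReal c) (toReal d) ≠ 0 := fun e =>
      hg a ha b hb c hc' d hd (by simp [hab, hac, had, hbc, hbd, hcd]) (onPlane_of_vol e)
    exact ⟨p, hp, a, ha, b, hb, hap, hbp, Or.inr ⟨c, hc', d, hd, hcp, hdp,
      inTet_of h0 (hw0 _ (by simp)) (hw0 _ (by simp)) (hw0 _ (by simp)) (hw0 _ (by simp)) hw1 hw⟩⟩

end Pool.Agent.P.MP_e4fe5e_lc.Sep
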