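import Pool.Prelude.Def_H_3587d628

/-! Definitions for CONVEX SET IN 3D, polynomial kernels and the class coNP/poly. -/

namespace Pool.Agent.P.MP_e4fe5e_lc

open N68a2faeb

/-- A point of 3-space with rational coordinates. -/
abbrev Pt := ℚ × ℚ × ℚ

/-- The point of real 3-space with the given rational coordinates. -/
def toReal (p : Pt) : ℝ × ℝ × ℝ := ((p.1 : ℝ), (p.2.1 : ℝ), (p.2.2 : ℝ))

/-- An instance: a list of points and the parameter `k`. -/
abbrev Instance := List Pt × ℕ

/-- No point of `Q` lies in the convex hull of the other points of `Q`. -/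
def ConvexPosition (Q : Set (ℝ × ℝ × ℝ)) : Prop := ∀ q ∈ Q, q ∉ convexHull ℝ (Q \ {q})

/-- The four points lie on a common plane `α x + β y + γ z = δ`. -/
def OnPlane (a b c d : ℝ × ℝ × ℝ) : Prop :=
  ∃ α β γ δ : ℝ, (α ≠ 0 ∨ β ≠ 0 ∨ γ ≠ 0) ∧
    ∀ p ∈ [a, b, c, d], α * p.1 + β * p.2.1 + γ * p.2.2 = δ

/-- A legal instance: distinct points, no four of them on a common plane, and `k` positive. -/
def Valid (I : Instance) : Prop :=
  I.1.Nodup ∧ (∀ a ∈ I.1, ∀ b ∈ I.1, ∀ c ∈ I.1, ∀ d ∈ I.1, [a, b, c, d].Nodup →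
    ¬ OnPlane (toReal a) (toReal b) (toReal c) (toReal d)) ∧ 0 < I.2

/-- Yes-instances: some `k` of the points are in convex position. -/
def Yes (I : Instance) : Prop :=
  ∃ Q : Finset Pt, (∀ q ∈ Q, q ∈ I.1) ∧ Q.card = I.2 ∧ ConvexPosition (toReal '' Q)

/-- A polynomial-time map sending legal instances to equivalent legal instances whose number of
points is at most `g(k)` for a polynomial `g`. -/
def HasPolyKernel : Prop :=
  ∃ (K : Instance → Instance) (g : Polynomial ℕ), IsPolyTime K ∧
    ∀ I, Valid I → Valid (K I) ∧ (Yes I ↔ Yes (K I)) ∧ (K I).1.length ≤ g.eval I.2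

/-- coNP/poly: languages decided by a coNP language with polynomial-length advice that depends
only on the input length. -/
def coNPpoly : DecisionComplexityClass :=
  {L | ∃ A ∈ coNP, ∃ (p : Polynomial ℕ) (a : ℕ → List Bool), (∀ n, (a n).length ≤ p.eval n) ∧
    ∀ x, L x = A (N487b59b3.bitEncode (x, a x.length))}

end Pool.Agent.P.MP_e4fe5e_lc
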