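import Pool.Agent.P.MP_e4fe5e_lc.Grid

/-! The geometric OR-composition. -/

namespace Pool.Agent.P.MP_e4fe5e_lc

open Finset

/-- Labels: base points (quadrant, number) and cluster points (cluster, site). -/
abbrev Lab := ((Bool × Bool) × ℕ) ⊕ (ℕ × Site)

/-- Sign. -/
def sg (b : Bool) : ℤ := bif b then 1 else -1

/-- Position of a base point. -/
def basePos (W M : ℕ) (l : (Bool × Bool) × ℕ) : ℤ × ℤ × ℤ :=
  (sg l.1.1 * (M + 2 * W * l.2), sg l.1.2 * (M + W * W - l.2 * l.2), 0)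

/-- Position of a cluster point; `d` is the depth of the site. -/
def clPos (j S Λ H : ℕ) (a : ℕ) (s : Site) (d : ℤ) : ℤ × ℤ × ℤ :=
  (Λ * val 16 j a + S * sx s, Λ * val 256 j a + S * sy s,
    H + Λ * val 4096 j a - (sx s * sx s + sy s * sy s + d))

/-- `x` is a small perturbation of the integer point `p`. -/
def Close (x : ℝ × ℝ × ℝ) (p : ℤ × ℤ × ℤ) : Prop :=
  |x.1 - p.1| ≤ 1 / 100 ∧ |x.2.1 - p.2.1| ≤ 1 / 100 ∧ |x.2.2 - p.2.2| ≤ 1 / 100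

/-- Size conditions on the parameters. -/
structure Par (N j W S Λ M H : ℕ) : Prop where
  hN : 1 ≤ N
  hW : 64 * (j + 1) ^ 3 * (46 * N * (N + 1)) < W
  hS : S = 1000 * (100 * (N + 1)) * 256 ^ j
  hΛ : 1000 * S * (100 * (N + 1)) ≤ Λ
  hΛ' : W * W ≤ Λ
  hM : M = 40 * Λ * 256 ^ j * 4096 ^ j
  hH : H = Λ * 4096 ^ j

theorem site_bd {N : ℕ} (tap : ℕ → ℕ → Bool) {s : Site} (hs : InGrid N s) :
    |sx s| ≤ 100 * (N + 1) ∧ |sy s| ≤ 100 * (N + 1) ∧ 0 ≤ sd tap s ∧ sd tap s ≤ 40 := by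
  obtain ⟨h1, h2, h3, -⟩ := hs
  have h4 := tbl_bd _ h3
  have h5 := sd_bd tap h3
  unfold sx sy
  refine ⟨by rw [abs_le]; omega, by rw [abs_le]; omega, by omega, h5.2⟩

section

variable {N j W S Λ M H : ℕ} (hp : Par N j W S Λ M H)
include hp

theorem Par.real : ∃ G B : ℝ, 1 ≤ G ∧ 200 ≤ B ∧ G = 16 ^ j ∧ G * G = 256 ^ j ∧
    G * G * G = 4096 ^ j ∧ B = 100 * (N + 1) ∧ (S : ℝ) = 1000 * B * (G * G) ∧
    1000 * S * B ≤ Λ ∧ (W : ℝ) * W ≤ Λ ∧ (M : ℝ) = 40 * Λ * (G * G) * (G * G * G) ∧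
    (H : ℝ) = Λ * (G * G * G) := by
  have e1 : (16 : ℝ) ^ j * 16 ^ j = 256 ^ j := by rw [← mul_pow]; norm_num
  have e2 : (16 : ℝ) ^ j * 16 ^ j * 16 ^ j = 4096 ^ j := by rw [← mul_pow, ← mul_pow]; norm_num
  have hN : (1 : ℝ) ≤ N := by exact_mod_cast hp.hN
  refine ⟨16 ^ j, 100 * (N + 1), one_le_pow₀ (by norm_num), by linarith, rfl, e1, e2, rfl,
    ?_, ?_, ?_, ?_, ?_⟩
  · rw [e1]; exact_mod_cast hp.hS
  · exact_mod_cast hp.hΛ
  · exact_mod_cast hp.hΛ'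
  · rw [e2, e1]; exact_mod_cast hp.hM
  · rw [e2]; exact_mod_cast hp.hH

theorem Par.big : (1000000 : ℝ) ≤ Λ := by
  obtain ⟨G, B, hG, hB, -, -, -, -, hS, hΛ, -⟩ := hp.real
  have h1 : 1 ≤ G * G := by nlinarith
  have h2 : 1000 * B ≤ S := by nlinarith
  nlinarith

theorem Par.near {tap : ℕ → ℕ → Bool} {a : ℕ} {s : Site} (hs : InGrid N s) {x : ℝ × ℝ × ℝ}
    (hx : Close x (clPos j S Λ H a s (sd tap s))) : Near j Λ H a x := by
  obtain ⟨G, B, hG, hB, -, -, -, eB, hS, hΛ, -⟩ := hp.real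
  obtain ⟨b1, b2, b3, b4⟩ := site_bd tap hs
  have c1 : |(sx s : ℝ)| ≤ B := by rw [eB]; exact_mod_cast b1
  have c2 : |(sy s : ℝ)| ≤ B := by rw [eB]; exact_mod_cast b2
  have c3 : (0 : ℝ) ≤ sd tap s := by exact_mod_cast b3
  have c4 : (sd tap s : ℝ) ≤ 40 := by exact_mod_cast b4
  have h1 : 1 ≤ G * G := by nlinarith
  have h2 : 1000 * B ≤ S := by nlinarith
  have h3 : (1000 * B) * B ≤ S * B := by gcongr
  have h4 : 200 * B ≤ B * B := by nlinarith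
  have d1 : (sx s : ℝ) * sx s ≤ B * B := abs_mul_abs_self (sx s : ℝ) ▸
    mul_self_le_mul_self (abs_nonneg _) c1
  have d2 : (sy s : ℝ) * sy s ≤ B * B := abs_mul_abs_self (sy s : ℝ) ▸
    mul_self_le_mul_self (abs_nonneg _) c2
  have d3 := mul_self_nonneg (sx s : ℝ)
  have d4 := mul_self_nonneg (sy s : ℝ)
  have f1 : |(S : ℝ) * sx s| ≤ S * B := by rw [abs_mul, Nat.abs_cast]; gcongr
  have f2 : |(S : ℝ) * sy s| ≤ S * B := by rw [abs_mul, Nat.abs_cast]; gcongr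
  obtain ⟨x1, x2, x3⟩ := hx
  simp only [clPos] at x1 x2 x3
  push_cast at x1 x2 x3
  rw [abs_le] at x1 x2 x3 f1 f2
  refine ⟨abs_le.2 ⟨?_, ?_⟩, abs_le.2 ⟨?_, ?_⟩, abs_le.2 ⟨?_, ?_⟩⟩ <;> linarith

theorem Par.near_bd {a : ℕ} {x : ℝ × ℝ × ℝ} (hx : Near j Λ H a x) :
    |x.1| ≤ 2 * Λ * 256 ^ j ∧ |x.2.1| ≤ 2 * Λ * 256 ^ j ∧ Λ * 4096 ^ j / 2 ≤ x.2.2 ∧
      x.2.2 ≤ 3 * Λ * 4096 ^ j := by
  obtain ⟨G, B, hG, -, e1, e2, e3, -, -, -, -, -, hH⟩ := hp.real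
  have hΛ := hp.big
  have v1 : (val 16 j a : ℝ) ≤ G := by rw [e1]; exact_mod_cast val_le (by norm_num) j a
  have v2 : (val 256 j a : ℝ) ≤ G * G := by rw [e2]; exact_mod_cast val_le (by norm_num) j a
  have v3 : (val 4096 j a : ℝ) ≤ G * G * G := by
    rw [e3]; exact_mod_cast val_le (by norm_num) j a
  have g1 : G ≤ G * G := by nlinarith
  have g2 : G * G ≤ G * G * G := by nlinarith
  have w1 : (Λ : ℝ) * val 16 j a ≤ Λ * (G * G) := by gcongr; linarith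
  have w2 : (Λ : ℝ) * val 256 j a ≤ Λ * (G * G) := by gcongr
  have w3 : (Λ : ℝ) * val 4096 j a ≤ Λ * (G * G * G) := by gcongr
  have u1 : (0 : ℝ) ≤ Λ * val 16 j a := by positivity
  have u2 : (0 : ℝ) ≤ Λ * val 256 j a := by positivity
  have u3 : (0 : ℝ) ≤ Λ * val 4096 j a := by positivity
  have y1 : (Λ : ℝ) * 1 ≤ Λ * (G * G) := by gcongr; linarith
  have y2 : (Λ : ℝ) * 1 ≤ Λ * (G * G * G) := by gcongr; linarith
  obtain ⟨x1, x2, x3⟩ := hx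
  rw [abs_le] at x1 x2 x3
  rw [← e2, ← e3]
  refine ⟨abs_le.2 ⟨?_, ?_⟩, abs_le.2 ⟨?_, ?_⟩, ?_, ?_⟩ <;> linarith

theorem Par.base_bd {l : (Bool × Bool) × ℕ} (hl : l.2 ≤ W) {x : ℝ × ℝ × ℝ}
    (hx : Close x (basePos W M l)) :
    M - 1 ≤ sg l.1.1 * x.1 ∧ M - 1 ≤ sg l.1.2 * x.2.1 ∧ |x.1| ≤ 2 * M ∧ |x.2.1| ≤ 2 * M ∧
      |x.2.2| ≤ 1 / 100 := by
  obtain ⟨G, B, hG, -, -, -, -, -, -, -, hW, hM, -⟩ := hp.real
  have hΛ := hp.big
  have g1 : 1 ≤ G * G := by nlinarith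
  have g2 : 1 ≤ G * G * G := by nlinarith
  have g3 : 40 * (Λ : ℝ) * 1 * 1 ≤ M := by rw [hM]; gcongr
  have hl' : (l.2 : ℝ) ≤ W := by exact_mod_cast hl
  have k1 : (W : ℝ) * l.2 ≤ W * W := by gcongr
  have k2 : (l.2 : ℝ) * l.2 ≤ W * W := by gcongr
  have k3 : (0 : ℝ) ≤ W * l.2 := by positivity
  have k4 : (0 : ℝ) ≤ l.2 * l.2 := by positivity
  obtain ⟨x1, x2, x3⟩ := hx
  obtain ⟨⟨b₁, b₂⟩, i⟩ := l
  simp only [basePos] at x1 x2 x3
  push_cast at x1 x2 x3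
  rw [abs_le] at x1 x2
  refine ⟨?_, ?_, abs_le.2 ⟨?_, ?_⟩, abs_le.2 ⟨?_, ?_⟩, by simpa using x3⟩
  · cases b₁ <;> simp [sg] at x1 ⊢ <;> linarith
  · cases b₂ <;> simp [sg] at x2 ⊢ <;> linarith
  · cases b₁ <;> simp [sg] at x1 <;> linarith
  · cases b₁ <;> simp [sg] at x1 <;> linarith
  · cases b₂ <;> simp [sg] at x2 <;> linarith
  · cases b₂ <;> simp [sg] at x2 <;> linarith

theorem Par.slope {a i : ℕ} (hi : i ≤ W) {x y : ℝ × ℝ × ℝ} {α β γ : ℝ} (hx : Near j Λ H a x)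
    (hy : Close y (basePos W M ((decide (0 ≤ α), decide (0 ≤ β)), i)))
    (h : ev α β γ y < ev α β γ x) : 0 < γ ∧ 8 * 256 ^ j * (|α| + |β|) ≤ γ := by
  obtain ⟨x1, x2, x3, x4⟩ := hp.near_bd hx
  obtain ⟨y1, y2, -, -, y3⟩ := hp.base_bd (l := ((decide (0 ≤ α), decide (0 ≤ β)), i)) hi hy
  obtain ⟨G, B, hG, -, -, e2, e3, -, -, -, -, hM, -⟩ := hp.real
  have hΛ := hp.big
  rw [← e2] at x1 x2 ⊢
  rw [← e3] at x3 x4
  have s : ∀ c u : ℝ, c * u = |c| * (sg (decide (0 ≤ c)) * u) := by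
    intro c u
    by_cases hc : 0 ≤ c
    · simp [sg, hc, abs_of_nonneg hc]
    · simp [sg, hc, abs_of_neg (not_le.1 hc)]
  have a1 : |α| * (M - 1) ≤ α * y.1 := by rw [s α y.1]; gcongr
  have a2 : |β| * (M - 1) ≤ β * y.2.1 := by rw [s β y.2.1]; gcongr
  have a3 : α * x.1 ≤ |α| * (2 * Λ * (G * G)) :=
    (le_abs_self _).trans (by rw [abs_mul]; gcongr)
  have a4 : β * x.2.1 ≤ |β| * (2 * Λ * (G * G)) :=
    (le_abs_self _).trans (by rw [abs_mul]; gcongr)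
  have g1 : 1 ≤ G * G := by nlinarith
  have g2 : 1 ≤ G * G * G := by nlinarith
  have g3 : (Λ : ℝ) * (G * G) * 1 ≤ Λ * (G * G) * (G * G * G) := by gcongr
  have g4 : (Λ : ℝ) * 1 ≤ Λ * (G * G) := by gcongr
  have g5 : (Λ : ℝ) * 1 ≤ Λ * (G * G * G) := by gcongr
  have g6 : 32 * (Λ * (G * G) * (G * G * G)) ≤ M - 1 - 2 * Λ * (G * G) := by linarith
  have n : 0 ≤ |α| + |β| := by positivity
  have a5 : (|α| + |β|) * (32 * (Λ * (G * G) * (G * G * G))) < γ * (x.2.2 - y.2.2) := by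
    have := mul_le_mul_of_nonneg_left g6 n
    unfold ev at h
    linarith
  rw [abs_le] at y3
  have z1 : 0 < x.2.2 - y.2.2 := by linarith
  have z2 : x.2.2 - y.2.2 ≤ 4 * (Λ * (G * G * G)) := by linarith
  have hγ : 0 < γ := (mul_pos_iff_of_pos_right z1).1 (lt_of_le_of_lt (by positivity) a5)
  refine ⟨hγ, ?_⟩
  have a6 := a5.trans_le (mul_le_mul_of_nonneg_left z2 hγ.le)
  have z3 : 0 < 4 * (Λ * (G * G * G)) := by linarith
  refine le_of_mul_le_mul_right ?_ z3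
  linarith

theorem Par.cross {a a' : ℕ} (ha : a < 2 ^ j) (ha' : a' < 2 ^ j) (hne : a ≠ a')
    {x x' : ℝ × ℝ × ℝ} (hx : Near j Λ H a x) (hx' : Near j Λ H a' x') (hz : x.2.2 ≤ x'.2.2)
    {α β γ : ℝ} (hγ : 0 < γ) (hs : 8 * 256 ^ j * (|α| + |β|) ≤ γ) :
    ev α β γ x < ev α β γ x' := by
  have hΛ := hp.big
  have h := near_z (by linarith) ha ha' hne hx hx'
  rw [abs_of_nonpos (by linarith)] at h
  obtain ⟨x1, x2, -⟩ := hp.near_bd hx
  obtain ⟨y1, y2, -⟩ := hp.near_bd hx'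
  have a1 : α * (x.1 - x'.1) ≤ |α| * (4 * Λ * 256 ^ j) := (le_abs_self _).trans (by
    rw [abs_mul]; gcongr; exact (abs_sub _ _).trans (by linarith))
  have a2 : β * (x.2.1 - x'.2.1) ≤ |β| * (4 * Λ * 256 ^ j) := (le_abs_self _).trans (by
    rw [abs_mul]; gcongr; exact (abs_sub _ _).trans (by linarith))
  have a3 : γ * (9 / 10 * Λ) ≤ γ * -(x.2.2 - x'.2.2) := by gcongr
  have a4 : 8 * 256 ^ j * (|α| + |β|) * Λ ≤ γ * Λ := by gcongr
  have a5 : 0 < γ * Λ := by positivity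
  unfold ev
  linarith

end

theorem ev_close {x : ℝ × ℝ × ℝ} {p : ℤ × ℤ × ℤ} (h : Close x p) (α β γ : ℝ) :
    |ev α β γ x - (α * p.1 + β * p.2.1 + γ * p.2.2)| ≤ (|α| + |β| + |γ|) / 100 := by
  obtain ⟨h1, h2, h3⟩ := h
  have a1 : |α * (x.1 - p.1)| ≤ |α| * (1 / 100) := by rw [abs_mul]; gcongr
  have a2 : |β * (x.2.1 - p.2.1)| ≤ |β| * (1 / 100) := by rw [abs_mul]; gcongr
  have a3 : |γ * (x.2.2 - p.2.2)| ≤ |γ| * (1 / 100) := by rw [abs_mul]; gcongr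
  rw [abs_le] at a1 a2 a3 ⊢
  unfold ev
  constructor <;> linarith

theorem no_kill {j S Λ H c : ℕ} {tap : ℕ → ℕ → Bool} {b a a' : Site} (hk : Kill tap b a a')
    {x y y' : ℝ × ℝ × ℝ} (hx : Close x (clPos j S Λ H c b (sd tap b)))
    (hy : Close y (clPos j S Λ H c a (sd tap a))) (hy' : Close y' (clPos j S Λ H c a' (sd tap a')))
    {α β γ : ℝ} (hγ : 0 < γ) (hs : |α| + |β| ≤ γ) (h : ev α β γ y < ev α β γ x)
    (h' : ev α β γ y' < ev α β γ x) : False := by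
  obtain ⟨k1, k2, k3, k4, k5⟩ := hk
  have e1 := ev_close hx α β γ
  have e2 := ev_close hy α β γ
  have e3 := ev_close hy' α β γ
  rw [abs_of_pos hγ, abs_le] at e1 e2 e3
  simp only [clPos, k3, k4] at e1 e2 e3
  push_cast at e1 e2 e3
  have l1 : (sx b : ℝ) = (sx a + sx a') / 2 := by
    have : 2 * (sx b : ℝ) = sx a + sx a' := by exact_mod_cast k1
    linarith
  have l2 : (sy b : ℝ) = (sy a + sy a') / 2 := by
    have : 2 * (sy b : ℝ) = sy a + sy a' := by exact_mod_cast k2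
    linarith
  have l5 : ((sx a : ℝ) - sx a') ^ 2 + (sy a - sy a') ^ 2 + 4 ≤ 4 * sd tap b := by
    exact_mod_cast k5
  have l6 := mul_le_mul_of_nonneg_left l5 hγ.le
  rw [l1, l2] at e1
  nlinarith

/-- Every point of the family is the strict maximiser of some functional. -/
def Supp {ι : Type*} (X : ι → ℝ × ℝ × ℝ) (J : Finset ι) : Prop :=
  ∀ p ∈ J, ∃ α β γ : ℝ, ∀ q ∈ J, q ≠ p → ev α β γ (X q) < ev α β γ (X p)

/-- Labels that occur. -/
def Ok (N W t : ℕ) : Lab → Prop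
  | .inl l => 1 ≤ l.2 ∧ l.2 ≤ W
  | .inr l => l.1 < t ∧ InGrid N l.2

/-- Position of a label. -/
def pos (j W S Λ M H : ℕ) (taps : ℕ → ℕ → ℕ → Bool) : Lab → ℤ × ℤ × ℤ
  | .inl l => basePos W M l
  | .inr l => clPos j S Λ H l.1 l.2 (sd (taps l.1) l.2)

theorem geom_no {N j W S Λ M H t : ℕ} (hp : Par N j W S Λ M H) (ht : t ≤ 2 ^ j)
    {taps : ℕ → ℕ → ℕ → Bool} {X : Lab → ℝ × ℝ × ℝ}
    (hX : ∀ l, Ok N W t l → Close (X l) (pos j W S Λ M H taps l)) {J : Finset Lab}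
    (hJ : ∀ l ∈ J, Ok N W t l) (hc : J.card = 4 * W + 36 * N * (N + 1)) (hs : Supp X J) :
    ∃ a < t, GridSat N (taps a) := by
  classical
  have hΛ := hp.big
  have hR : ∀ l ∈ J.toRight, l.1 < t ∧ InGrid N l.2 := fun l hl => hJ _ (mem_toRight.1 hl)
  have hL : ∀ l ∈ J.toLeft, 1 ≤ l.2 ∧ l.2 ≤ W := fun l hl => hJ _ (mem_toLeft.1 hl)
  have cl : ∀ a s, (a, s) ∈ J.toRight →
      Close (X (.inr (a, s))) (clPos j S Λ H a s (sd (taps a) s)) := fun a s hl =>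
    hX (.inr (a, s)) (hR _ hl)
  have near : ∀ l ∈ J.toRight, Near j Λ H l.1 (X (.inr l)) := fun l hl =>
    hp.near (hR l hl).2 (cl l.1 l.2 hl)
  have hsum := card_toLeft_add_card_toRight (u := J)
  have hA : (J.toRight.image Prod.fst).card ≤ 64 * (j + 1) ^ 3 := by
    have : ∀ a ∈ J.toRight.image Prod.fst, ∃ s, (a, s) ∈ J.toRight := by
      intro a ha
      obtain ⟨l, hl, rfl⟩ := mem_image.1 ha
      exact ⟨l.2, hl⟩
    choose! rep hrep using this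
    refine skel (Λ := Λ) (H := H) (by linarith) _ (fun a ha => (hR _ (hrep a ha)).1.trans_le ht)
      (fun a => X (.inr (a, rep a))) (fun a ha => near _ (hrep a ha)) fun a ha => ?_
    obtain ⟨α, β, γ, h⟩ := hs _ (mem_toRight.1 (hrep a ha))
    exact ⟨α, β, γ, fun a' ha' hne => h _ (mem_toRight.1 (hrep a' ha')) (by simp [hne])⟩
  have hB : J.toRight.card < W := by
    have : J.toRight ⊆ J.toRight.image Prod.fst ×ˢ range (N + 1) ×ˢ range (2 * N) ×ˢ range 23 := by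
      intro l hl
      obtain ⟨h1, h2, h3, -⟩ := (hR l hl).2
      simp only [mem_product, mem_range]
      exact ⟨mem_image_of_mem _ hl, by omega, h2, h3⟩
    have h1 := card_le_card this
    simp only [card_product, card_range] at h1
    refine lt_of_le_of_lt (h1.trans ?_) hp.hW
    exact Nat.mul_le_mul hA (le_of_eq (by ring))
  have quad : ∀ σ : Bool × Bool, ∃ i, (σ, i) ∈ J.toLeft := by
    intro σ
    by_contra hn
    push Not at hn
    have : J.toLeft ⊆ univ.erase σ ×ˢ Icc 1 W := by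
      intro l hl
      simp only [mem_product, mem_erase, mem_univ, and_true, mem_Icc]
      exact ⟨fun e => hn l.2 (e ▸ hl), hL l hl⟩
    have h1 := card_le_card this
    simp [card_product] at h1
    omega
  have hC : J.toLeft.card ≤ 4 * W := by
    have : J.toLeft ⊆ univ ×ˢ Icc 1 W := by
      intro l hl
      simp only [mem_product, mem_univ, true_and, mem_Icc]
      exact hL l hl
    simpa [card_product] using card_le_card this
  have supp : ∀ l ∈ J.toRight, ∃ α β γ : ℝ, 0 < γ ∧ 8 * 256 ^ j * (|α| + |β|) ≤ γ ∧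
      ∀ l' ∈ J.toRight, l' ≠ l → ev α β γ (X (.inr l')) < ev α β γ (X (.inr l)) := by
    intro l hl
    obtain ⟨α, β, γ, h⟩ := hs _ (mem_toRight.1 hl)
    obtain ⟨i, hi⟩ := quad (decide (0 ≤ α), decide (0 ≤ β))
    obtain ⟨h1, h2⟩ := hp.slope (hL _ hi).2 (near l hl) (hX (.inl _) (hL _ hi))
      (h _ (mem_toLeft.1 hi) (by simp))
    exact ⟨α, β, γ, h1, h2, fun l' hl' hne => h _ (mem_toRight.1 hl') (by simpa using hne)⟩
  have same : ∀ l ∈ J.toRight, ∀ l' ∈ J.toRight, l.1 = l'.1 := by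
    have key : ∀ l ∈ J.toRight, ∀ l' ∈ J.toRight, (X (.inr l)).2.2 ≤ (X (.inr l')).2.2 →
        l.1 = l'.1 := by
      intro l hl l' hl' hz
      by_contra hne
      obtain ⟨α, β, γ, h1, h2, h⟩ := supp l hl
      exact (h l' hl' fun e => hne (by rw [e])).not_gt (hp.cross ((hR l hl).1.trans_le ht)
        ((hR l' hl').1.trans_le ht) hne (near l hl) (near l' hl') hz h1 h2)
    intro l hl l' hl'
    rcases le_total (X (.inr l)).2.2 (X (.inr l')).2.2 with h | h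
    · exact key l hl l' hl' h
    · exact (key l' hl' l hl h).symm
  have hN := hp.hN
  have hD : 36 * N * (N + 1) ≤ J.toRight.card := by omega
  obtain ⟨l₀, hl₀⟩ : J.toRight.Nonempty := card_pos.1 (lt_of_lt_of_le (by positivity) hD)
  have mem : ∀ s ∈ J.toRight.image Prod.snd, (l₀.1, s) ∈ J.toRight := by
    intro s hs
    obtain ⟨l, hl, rfl⟩ := mem_image.1 hs
    rwa [same l₀ hl₀ l hl]
  refine ⟨l₀.1, (hR _ hl₀).1, sat_of_large (J := J.toRight.image Prod.snd)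
    (fun s hs => (hR _ (mem s hs)).2) (fun b hb a ha a' ha' hk => ?_) ?_⟩
  · obtain ⟨α, β, γ, h1, h2, h⟩ := supp _ (mem b hb)
    have n : ∀ c, sd (taps l₀.1) c = 0 → (l₀.1, c) ≠ (l₀.1, b) := by
      intro c hc e
      obtain rfl : c = b := by simpa using e
      have := hk.2.2.2.2
      rw [hc] at this
      linarith [sq_nonneg (sx a - sx a'), sq_nonneg (sy a - sy a')]
    have g : (1 : ℝ) * (|α| + |β|) ≤ 256 ^ j * (|α| + |β|) := by
      gcongr; exact one_le_pow₀ (by norm_num)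
    exact no_kill hk (cl _ _ (mem b hb)) (cl _ _ (mem a ha)) (cl _ _ (mem a' ha')) h1
      (by linarith [abs_nonneg α, abs_nonneg β]) (h _ (mem a ha) (n a hk.2.2.1))
      (h _ (mem a' ha') (n a' hk.2.2.2.1))
  · rwa [card_image_of_injOn fun l hl l' hl' e => Prod.ext (same l hl l' hl') e]

theorem base_base {W M : ℕ} (hM : W ≤ M) {l l' : (Bool × Bool) × ℕ} (h1 : 1 ≤ l.2) (h2 : l.2 ≤ W)
    (h3 : l'.2 ≤ W) (hne : l' ≠ l) :
    l.2 * sg l.1.1 * (basePos W M l').1 + W * sg l.1.2 * (basePos W M l').2.1 + W ≤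
      l.2 * sg l.1.1 * (basePos W M l).1 + W * sg l.1.2 * (basePos W M l).2.1 := by
  obtain ⟨⟨b₁, b₂⟩, i⟩ := l
  obtain ⟨⟨c₁, c₂⟩, k⟩ := l'
  dsimp only at h1 h2 h3
  zify at h1 h2 h3 hM
  have w : (0 : ℤ) ≤ W := by positivity
  have k0 : (0 : ℤ) ≤ k := by positivity
  have s1 : (0 : ℤ) ≤ W * (i - k) ^ 2 := by positivity
  have s2 : (M : ℤ) ≤ i * (M + 2 * W * k) := by nlinarith [mul_nonneg w k0]
  have s3 : (M : ℤ) ≤ W * (M + W * W - k * k) := by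
    have : (k : ℤ) * k ≤ W * W := by gcongr
    nlinarith
  have s4 : (k : ℤ) ≠ i → W ≤ W * ((i : ℤ) - k) ^ 2 := by
    intro h
    have : 0 < ((i : ℤ) - k) ^ 2 := by
      have : (i : ℤ) - k ≠ 0 := by omega
      positivity
    nlinarith
  cases b₁ <;> cases b₂ <;> cases c₁ <;> cases c₂ <;> simp only [basePos, sg, cond] <;>
    first
    | (have := s4 (by simpa using hne); linarith)
    | linarith

theorem abs_sg (c : ℕ) (b : Bool) : |(c : ℝ) * sg b| = c := by cases b <;> simp [sg]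

theorem mul_le_abs {a x A X : ℝ} (ha : |a| ≤ A) (hx : |x| ≤ X) : a * x ≤ A * X :=
  (le_abs_self _).trans (by
    rw [abs_mul]; exact mul_le_mul ha hx (abs_nonneg _) ((abs_nonneg _).trans ha))

section

variable {N j W S Λ M H : ℕ} (hp : Par N j W S Λ M H)
include hp

theorem Par.bb {l l' : (Bool × Bool) × ℕ} (l1 : 1 ≤ l.2) (l2 : l.2 ≤ W) (l3 : l'.2 ≤ W)
    (hne : l' ≠ l) {x y : ℝ × ℝ × ℝ} (hx : Close x (basePos W M l))
    (hy : Close y (basePos W M l')) :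
    ev (l.2 * sg l.1.1) (W * sg l.1.2) 0 y < ev (l.2 * sg l.1.1) (W * sg l.1.2) 0 x := by
  have l1' : (1 : ℝ) ≤ l.2 := by exact_mod_cast l1
  have l2' : (l.2 : ℝ) ≤ W := by exact_mod_cast l2
  have e1 := ev_close hx (l.2 * sg l.1.1) (W * sg l.1.2) 0
  have e2 := ev_close hy (l.2 * sg l.1.1) (W * sg l.1.2) 0
  have hWM : W ≤ M := by
    rw [hp.hM]
    have h1 : W * 1 ≤ W * W := Nat.mul_le_mul_left _ (l1.trans l2)
    have h2 := hp.hΛ'
    have h3 : 40 * Λ * 1 * 1 ≤ 40 * Λ * 256 ^ j * 4096 ^ j := by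
      gcongr <;> exact Nat.one_le_pow _ _ (by norm_num)
    omega
  have e3 := base_base hWM l1 l2 l3 hne
  rify at e3
  rw [abs_sg, abs_sg, abs_le] at e1 e2
  simp only [abs_zero] at e1 e2
  linarith

theorem Par.bc {l : (Bool × Bool) × ℕ} (l1 : 1 ≤ l.2) (l2 : l.2 ≤ W) {a : ℕ}
    {x y : ℝ × ℝ × ℝ} (hx : Close x (basePos W M l)) (hy : Near j Λ H a y) :
    ev (l.2 * sg l.1.1) (W * sg l.1.2) 0 y < ev (l.2 * sg l.1.1) (W * sg l.1.2) 0 x := by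
  have hΛ := hp.big
  obtain ⟨G, B, hG, -, -, e2, -, -, -, -, -, hM, -⟩ := hp.real
  have g1 : 1 ≤ G * G := by nlinarith
  have g2 : 1 ≤ G * G * G := by nlinarith
  have g3 : (Λ : ℝ) * (G * G) * 1 ≤ Λ * (G * G) * (G * G * G) := by gcongr
  have g4 : (Λ : ℝ) * 1 ≤ Λ * (G * G) := by gcongr
  have l1' : (1 : ℝ) ≤ l.2 := by exact_mod_cast l1
  obtain ⟨x1, x2, -⟩ := hp.base_bd l2 hx
  obtain ⟨y1, y2, -⟩ := hp.near_bd hy
  rw [← e2] at y1 y2
  have a1 := mul_le_abs (abs_sg l.2 l.1.1).le y1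
  have a2 := mul_le_abs (abs_sg W l.1.2).le y2
  have a3 : l.2 * (2 * Λ * (G * G)) < l.2 * (sg l.1.1 * x.1) :=
    mul_lt_mul_of_pos_left (by linarith) (by linarith)
  have a4 : W * (2 * Λ * (G * G)) ≤ W * (sg l.1.2 * x.2.1) :=
    mul_le_mul_of_nonneg_left (by linarith) (Nat.cast_nonneg _)
  unfold ev
  linarith

theorem Par.cb {l : (Bool × Bool) × ℕ} (l2 : l.2 ≤ W) {a : ℕ} {x y : ℝ × ℝ × ℝ}
    (hx : Close x (basePos W M l)) (hy : Near j Λ H a y) {u v : ℤ} (hu : |u| ≤ 100 * (N + 1))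
    (hv : |v| ≤ 100 * (N + 1)) : ev (2 * u) (2 * v) S x < ev (2 * u) (2 * v) S y := by
  have hΛ := hp.big
  obtain ⟨G, B, hG, hB, -, e2, e3, eB, hS, -, -, hM, -⟩ := hp.real
  have g1 : 1 ≤ G * G := by nlinarith
  have g2 : 1 ≤ G * G * G := by nlinarith
  have g3 : (Λ : ℝ) * (G * G) * 1 ≤ Λ * (G * G) * (G * G * G) := by gcongr
  have g4 : (Λ : ℝ) * 1 ≤ Λ * (G * G) := by gcongr
  have g5 : (Λ : ℝ) * 1 ≤ Λ * (G * G * G) := by gcongr
  have hu' : |(2 * u : ℝ)| ≤ 2 * B := by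
    rw [abs_mul, eB, abs_two]; gcongr; exact_mod_cast hu
  have hv' : |(2 * v : ℝ)| ≤ 2 * B := by
    rw [abs_mul, eB, abs_two]; gcongr; exact_mod_cast hv
  obtain ⟨-, -, x1, x2, x3⟩ := hp.base_bd l2 hx
  obtain ⟨y1, y2, y3, -⟩ := hp.near_bd hy
  rw [← e2] at y1 y2
  rw [← e3] at y3
  have a1 := mul_le_abs hu' ((abs_sub x.1 y.1).trans (show _ ≤ 3 * (M : ℝ) by linarith))
  have a2 := mul_le_abs hv' ((abs_sub x.2.1 y.2.1).trans (show _ ≤ 3 * (M : ℝ) by linarith))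
  have a3 : S * (49 / 100 * (Λ * (G * G * G))) ≤ S * (y.2.2 - x.2.2) := by
    rw [abs_le] at x3
    exact mul_le_mul_of_nonneg_left (by linarith) (Nat.cast_nonneg _)
  have a4 : 0 < B * (Λ * (G * G) * (G * G * G)) :=
    mul_pos (by linarith) (by linarith)
  rw [hS] at a3
  rw [hM] at a1 a2
  unfold ev
  rw [hS]
  linarith

theorem Par.cc {tap : ℕ → ℕ → Bool} {a : ℕ} {s s' : Site} {x y : ℝ × ℝ × ℝ}
    (hx : Close x (clPos j S Λ H a s (sd tap s))) (hy : Close y (clPos j S Λ H a s' (sd tap s')))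
    {u v : ℤ} (hu : |u| ≤ 100 * (N + 1)) (hv : |v| ≤ 100 * (N + 1))
    (h : pw tap s u v < pw tap s' u v) : ev (2 * u) (2 * v) S y < ev (2 * u) (2 * v) S x := by
  obtain ⟨G, B, hG, hB, -, -, -, eB, hS, -⟩ := hp.real
  have g1 : 1 ≤ G * G := by nlinarith
  have hu' : |(2 * u : ℝ)| ≤ 2 * B := by
    rw [abs_mul, eB, abs_two]; gcongr; exact_mod_cast hu
  have hv' : |(2 * v : ℝ)| ≤ 2 * B := by
    rw [abs_mul, eB, abs_two]; gcongr; exact_mod_cast hv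
  have hS' : 1000 * B * 1 ≤ S := by rw [hS]; gcongr
  have e1 := ev_close hx (2 * u) (2 * v) S
  have e2 := ev_close hy (2 * u) (2 * v) S
  have e3 : pw tap s u v + 1 ≤ pw tap s' u v := h
  unfold pw at e3
  rify at e3
  have e4 := mul_le_mul_of_nonneg_left e3 (Nat.cast_nonneg (α := ℝ) S)
  rw [Nat.abs_cast, abs_le] at e1 e2
  simp only [clPos] at e1 e2
  push_cast at e1 e2
  linarith

end

theorem geom_yes {N j W S Λ M H t : ℕ} (hp : Par N j W S Λ M H)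
    {taps : ℕ → ℕ → ℕ → Bool} {X : Lab → ℝ × ℝ × ℝ}
    (hX : ∀ l, Ok N W t l → Close (X l) (pos j W S Λ M H taps l)) {a : ℕ} (ha : a < t)
    (h : GridSat N (taps a)) :
    ∃ J : Finset Lab, (∀ l ∈ J, Ok N W t l) ∧ J.card = 4 * W + 36 * N * (N + 1) ∧ Supp X J := by
  classical
  obtain ⟨J₀, hJ₀, hc, hs⟩ := large_of_sat h
  have hok : ∀ l ∈ (univ ×ˢ Icc 1 W).disjSum ({a} ×ˢ J₀), Ok N W t l := by
    rintro (l | l) hl
    · simpa [Ok] using hl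
    · simp only [inr_mem_disjSum, mem_product, mem_singleton] at hl
      exact ⟨hl.1 ▸ ha, hJ₀ _ hl.2⟩
  have cl : ∀ s ∈ J₀, Close (X (.inr (a, s))) (clPos j S Λ H a s (sd (taps a) s)) := fun s hs =>
    hX (.inr (a, s)) ⟨ha, hJ₀ s hs⟩
  have ba : ∀ l, Ok N W t (.inl l) → Close (X (.inl l)) (basePos W M l) := fun l hl =>
    hX (.inl l) hl
  refine ⟨(univ ×ˢ Icc 1 W).disjSum ({a} ×ˢ J₀), hok, by simp [hc], ?_⟩
  rintro (l | ⟨a', s⟩) hl
  · obtain ⟨l1, l2⟩ := hok _ hl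
    refine ⟨l.2 * sg l.1.1, W * sg l.1.2, 0, ?_⟩
    rintro (l' | ⟨a', s⟩) hl' hne
    · exact hp.bb l1 l2 (hok _ hl').2 (fun e => hne (by rw [e])) (ba l ⟨l1, l2⟩)
        (ba l' (hok _ hl'))
    · simp only [inr_mem_disjSum, mem_product, mem_singleton] at hl'
      obtain ⟨rfl, hl'⟩ := hl'
      exact hp.bc l1 l2 (ba l ⟨l1, l2⟩) (hp.near (hJ₀ s hl') (cl s hl'))
  · simp only [inr_mem_disjSum, mem_product, mem_singleton] at hl
    obtain ⟨rfl, hl⟩ := hl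
    obtain ⟨u, v, hu, hv, huv⟩ := hs _ hl
    refine ⟨2 * u, 2 * v, S, ?_⟩
    rintro (l' | ⟨a'', s'⟩) hl' hne
    · exact hp.cb (hok _ hl').2 (ba l' (hok _ hl')) (hp.near (hJ₀ s hl) (cl s hl)) hu hv
    · simp only [inr_mem_disjSum, mem_product, mem_singleton] at hl'
      obtain ⟨rfl, hl'⟩ := hl'
      exact hp.cc (cl s hl) (cl s' hl') hu hv (huv s' hl' fun e => hne (by rw [e]))

end Pool.Agent.P.MP_e4fe5e_lc
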