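import Pool.Agent.P.MP_e4fe5e_lc.Skel

/-! A planar grid of weighted sites that encodes a satisfiability instance. -/

namespace Pool.Agent.P.MP_e4fe5e_lc

open Finset

/-- Horizontal offsets of the 23 site types. -/
def ox (t : ℕ) : ℤ :=
  [-4, 4, -4, 4, 12, 20, 0, 0, 0, 0, -4, 4, 0, 16, 0, 8, 8, 24, 24, -2, 2, -2, 2].getD t 0

/-- Vertical offsets of the 23 site types. -/
def oy (t : ℕ) : ℤ :=
  [-4, -4, 4, 4, 0, 0, 12, 20, -4, 4, 0, 0, 0, 0, 16, -2, 2, -2, 2, 8, 8, 24, 24].getD t 0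

/-- Depths of the 23 site types. -/
def dp (t : ℕ) : ℤ :=
  [0, 0, 0, 0, 0, 0, 0, 0, 26, 26, 26, 26, 33, 17, 17, 21, 21, 21, 21, 21, 21, 21, 21].getD t 0

/-- Row, column, type. -/
abbrev Site := ℕ × ℕ × ℕ

/-- Switched-off blockers. -/
def Dis (tap : ℕ → ℕ → Bool) (s : Site) : Prop :=
  (s.2.2 = 15 ∧ ((1 ≤ s.1 ∧ tap s.1 s.2.1 = true) ∨ (s.1 = 0 ∧ s.2.1 % 2 = 1))) ∨
    (s.2.2 = 16 ∧ s.1 = 0 ∧ s.2.1 % 2 = 1)

instance (tap : ℕ → ℕ → Bool) (s : Site) : Decidable (Dis tap s) := by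
  unfold Dis; infer_instance

/-- Removed sites. -/
def Rem (N : ℕ) (s : Site) : Prop :=
  (1 ≤ s.1 ∧ s.2.1 = 0 ∧ (s.2.2 = 0 ∨ s.2.2 = 2)) ∨ (s.1 = 0 ∧ s.2.1 % 2 = 0 ∧ s.2.2 = 0) ∨
    (s.1 = 0 ∧ s.2.1 % 2 = 1 ∧ s.2.2 = 1) ∨ (s.2.1 + 1 = 2 * N ∧ s.2.2 = 5)

instance (N : ℕ) (s : Site) : Decidable (Rem N s) := by unfold Rem; infer_instance

/-- Sites of the grid. -/
def InGrid (N : ℕ) (s : Site) : Prop := s.1 ≤ N ∧ s.2.1 < 2 * N ∧ s.2.2 < 23 ∧ ¬ Rem N s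

/-- First coordinate. -/
def sx (s : Site) : ℤ := 32 * (s.2.1 : ℤ) + ox s.2.2

/-- Second coordinate. -/
def sy (s : Site) : ℤ := 32 * (s.1 : ℤ) + oy s.2.2

/-- Depth. -/
def sd (tap : ℕ → ℕ → Bool) (s : Site) : ℤ := dp s.2.2 - if Dis tap s then 2 else 0

/-- Some assignment satisfies all rows. -/
def GridSat (N : ℕ) (tap : ℕ → ℕ → Bool) : Prop :=
  ∃ v : ℕ → Bool, ∀ r, 1 ≤ r → r ≤ N → ∃ c < 2 * N, tap r c = true ∧ (v (c / 2) = true ↔ c % 2 = 0)

/-- The site `b` lies strictly below the midpoint of the lifted chord `a a'`. -/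
def Kill (tap : ℕ → ℕ → Bool) (b a a' : Site) : Prop :=
  2 * sx b = sx a + sx a' ∧ 2 * sy b = sy a + sy a' ∧ sd tap a = 0 ∧ sd tap a' = 0 ∧
    (sx a - sx a') ^ 2 + (sy a - sy a') ^ 2 + 4 ≤ 4 * sd tap b

theorem cellK : ∀ b0 b1 b2 b3 b8 b9 b10 b11 b12 : Bool, !(b8 && b0 && b1) → !(b9 && b2 && b3) →
    !(b10 && b0 && b2) → !(b11 && b1 && b3) → !(b12 && b0 && b3) → !(b12 && b1 && b2) →
    b0.toNat + b1.toNat + b2.toNat + b3.toNat + b8.toNat + b9.toNat + b10.toNat + b11.toNat +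
      b12.toNat ≤ 5 + (b0 || b1 || b2 || b3).toNat := by decide

theorem cellC : ∀ a a' b : Bool, !(b && a && a') →
    a.toNat + a'.toNat + b.toNat ≤ 1 + (a || a').toNat := by decide

theorem card_le_cells {N : ℕ} {J : Finset Site} (hJ : ∀ s ∈ J, InGrid N s) :
    J.card = ∑ r ∈ range (N + 1), ∑ c ∈ range (2 * N), ∑ t ∈ range 23,
      (decide ((r, c, t) ∈ J)).toNat := by
  have : J = (range (N + 1) ×ˢ range (2 * N) ×ˢ range 23).filter (· ∈ J) := by
    ext s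
    simp only [mem_filter, mem_product, mem_range]
    refine ⟨fun h => ⟨?_, h⟩, fun h => h.2⟩
    obtain ⟨h1, h2, h3, -⟩ := hJ s h
    omega
  conv_lhs => rw [this, card_filter, sum_product]
  refine sum_congr rfl fun r _ => ?_
  rw [sum_product]
  refine sum_congr rfl fun c _ => sum_congr rfl fun t _ => ?_
  by_cases h : (r, c, t) ∈ J <;> simp [h]

theorem cell_bound {tap : ℕ → ℕ → Bool} {J : Finset Site}
    (hk : ∀ b ∈ J, ∀ a ∈ J, ∀ a' ∈ J, ¬ Kill tap b a a') (r c : ℕ) :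
    ∑ t ∈ range 23, (decide ((r, c, t) ∈ J)).toNat ≤ 18 ∧
    (18 ≤ ∑ t ∈ range 23, (decide ((r, c, t) ∈ J)).toNat →
      ((r, c, 0) ∈ J ∨ (r, c, 1) ∈ J ∨ (r, c, 2) ∈ J ∨ (r, c, 3) ∈ J) ∧
      ((r, c, 4) ∈ J ∨ (r, c, 5) ∈ J) ∧ ((r, c, 6) ∈ J ∨ (r, c, 7) ∈ J) ∧
      ∀ t, 15 ≤ t → t < 23 → (r, c, t) ∈ J) := by
  have k : ∀ b a a' : ℕ, Kill tap (r, c, b) (r, c, a) (r, c, a') →
      (!(decide ((r, c, b) ∈ J) && decide ((r, c, a) ∈ J) && decide ((r, c, a') ∈ J))) = true := by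
    intro b a a' h
    simp only [Bool.not_eq_true', Bool.and_eq_false_iff, decide_eq_false_iff_not]
    by_contra hn
    push Not at hn
    exact hk _ hn.1.1 _ hn.1.2 _ hn.2 h
  have h1 := cellK _ _ _ _ _ _ _ _ _ (k 8 0 1 (by simp [Kill, sx, sy, sd, Dis, ox, oy, dp]; omega))
    (k 9 2 3 (by simp [Kill, sx, sy, sd, Dis, ox, oy, dp]; omega))
    (k 10 0 2 (by simp [Kill, sx, sy, sd, Dis, ox, oy, dp]; omega))
    (k 11 1 3 (by simp [Kill, sx, sy, sd, Dis, ox, oy, dp]; omega))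
    (k 12 0 3 (by simp [Kill, sx, sy, sd, Dis, ox, oy, dp]; omega))
    (k 12 1 2 (by simp [Kill, sx, sy, sd, Dis, ox, oy, dp]; omega))
  have h2 := cellC _ _ _ (k 13 4 5 (by simp [Kill, sx, sy, sd, Dis, ox, oy, dp]; omega))
  have h3 := cellC _ _ _ (k 14 6 7 (by simp [Kill, sx, sy, sd, Dis, ox, oy, dp]; omega))
  simp only [sum_range_succ, sum_range_zero]
  have b := fun t => Bool.toNat_le (decide ((r, c, t) ∈ J))
  have b15 := b 15
  have b16 := b 16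
  have b17 := b 17
  have b18 := b 18
  have b19 := b 19
  have b20 := b 20
  have b21 := b 21
  have b22 := b 22
  have c1 := Bool.toNat_le (decide ((r, c, 0) ∈ J) || decide ((r, c, 1) ∈ J) ||
    decide ((r, c, 2) ∈ J) || decide ((r, c, 3) ∈ J))
  have c2 := Bool.toNat_le (decide ((r, c, 4) ∈ J) || decide ((r, c, 5) ∈ J))
  have c3 := Bool.toNat_le (decide ((r, c, 6) ∈ J) || decide ((r, c, 7) ∈ J))
  have t1 : ∀ x : Bool, x.toNat = 1 → x = true := by decide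
  refine ⟨by omega, fun h => ⟨?_, ?_, ?_, fun t h1 h2 => ?_⟩⟩
  · simpa [or_assoc] using t1 _ (le_antisymm c1 (by omega))
  · simpa using t1 _ (le_antisymm c2 (by omega))
  · simpa using t1 _ (le_antisymm c3 (by omega))
  · refine of_decide_eq_true (t1 _ ?_)
    interval_cases t <;> omega

theorem sat_of_large {N : ℕ} {tap : ℕ → ℕ → Bool} {J : Finset Site} (hJ : ∀ s ∈ J, InGrid N s)
    (hk : ∀ b ∈ J, ∀ a ∈ J, ∀ a' ∈ J, ¬ Kill tap b a a') (hc : 36 * N * (N + 1) ≤ J.card) :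
    GridSat N tap := by
  classical
  have full : ∀ r ≤ N, ∀ c < 2 * N, 18 ≤ ∑ t ∈ range 23, (decide ((r, c, t) ∈ J)).toNat := by
    intro r hr c hc'
    by_contra hn
    have : ∑ r ∈ range (N + 1), ∑ c ∈ range (2 * N), ∑ t ∈ range 23,
        (decide ((r, c, t) ∈ J)).toNat < ∑ r ∈ range (N + 1), ∑ c ∈ range (2 * N), 18 :=
      sum_lt_sum (fun r _ => sum_le_sum fun c _ => (cell_bound hk r c).1)
        ⟨r, mem_range.2 (by omega), sum_lt_sum (fun c _ => (cell_bound hk r c).1)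
          ⟨c, mem_range.2 hc', by omega⟩⟩
    rw [← card_le_cells hJ] at this
    simp only [sum_const, card_range, smul_eq_mul] at this
    nlinarith
  have cell := fun r hr c hc => (cell_bound hk r c).2 (full r hr c hc)
  have rem : ∀ s, Rem N s → s ∉ J := fun s h hs => (hJ s hs).2.2.2 h
  have up1 : ∀ r c, r + 1 ≤ N → c < 2 * N → (r + 1, c, 0) ∈ J ∨ (r + 1, c, 1) ∈ J →
      (r, c, 0) ∈ J ∨ (r, c, 1) ∈ J := by
    intro r c hr hc' h
    obtain ⟨k1, -, k3, k4⟩ := cell r (by omega) c hc'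
    have n7 : (r, c, 7) ∉ J := by
      intro h7
      rcases h with h | h
      · exact hk _ (k4 21 (by omega) (by omega)) _ h7 _ h
          (by simp [Kill, sx, sy, sd, Dis, ox, oy, dp]; ring_nf; simp)
      · exact hk _ (k4 22 (by omega) (by omega)) _ h7 _ h
          (by simp [Kill, sx, sy, sd, Dis, ox, oy, dp]; ring_nf; simp)
    have h6 := k3.resolve_right n7
    have n2 : (r, c, 2) ∉ J := fun h2 => hk _ (k4 19 (by omega) (by omega)) _ h2 _ h6
      (by simp [Kill, sx, sy, sd, Dis, ox, oy, dp]; omega)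
    have n3 : (r, c, 3) ∉ J := fun h3 => hk _ (k4 20 (by omega) (by omega)) _ h3 _ h6
      (by simp [Kill, sx, sy, sd, Dis, ox, oy, dp]; omega)
    tauto
  have up : ∀ r c, r ≤ N → c < 2 * N → (r, c, 0) ∈ J ∨ (r, c, 1) ∈ J →
      (0, c, 0) ∈ J ∨ (0, c, 1) ∈ J := by
    intro r c hr hc' h
    induction r with
    | zero => exact h
    | succ r ih => exact ih (by omega) (up1 r c hr hc' h)
  have right : ∀ r c, r ≤ N → c < 2 * N → (r, c, 4) ∉ J →
      c + 1 < 2 * N ∧ (r, c + 1, 0) ∉ J ∧ (r, c + 1, 2) ∉ J := by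
    intro r c hr hc' h4
    obtain ⟨-, k2, -, k4⟩ := cell r hr c hc'
    have h5 := k2.resolve_left h4
    refine ⟨?_, fun h => ?_, fun h => ?_⟩
    · by_contra hn
      exact rem _ (by simp [Rem]; omega) h5
    · exact hk _ (k4 17 (by omega) (by omega)) _ h5 _ h
        (by simp [Kill, sx, sy, sd, Dis, ox, oy, dp]; ring_nf; simp)
    · exact hk _ (k4 18 (by omega) (by omega)) _ h5 _ h
        (by simp [Kill, sx, sy, sd, Dis, ox, oy, dp]; ring_nf; simp)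
  have excl : ∀ c, c % 2 = 0 → c < 2 * N → (0, c, 0) ∈ J ∨ (0, c, 1) ∈ J →
      ¬ ((0, c + 1, 0) ∈ J ∨ (0, c + 1, 1) ∈ J) := by
    intro c h2 hc' h
    have h1 := h.resolve_left (rem _ (by simp [Rem, h2]))
    obtain ⟨-, -, -, k4⟩ := cell 0 (by omega) c hc'
    have h4 : (0, c, 4) ∉ J := fun h4 => hk _ (k4 15 (by omega) (by omega)) _ h1 _ h4
      (by simp [Kill, sx, sy, sd, Dis, ox, oy, dp, h2]; omega)
    rintro (h' | h')
    · exact (right 0 c (by omega) hc' h4).2.1 h'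
    · exact rem _ (by simp [Rem]; omega) h'
  refine ⟨fun i => decide ((0, 2 * i, 0) ∈ J ∨ (0, 2 * i, 1) ∈ J), fun r hr1 hr => ?_⟩
  by_contra hn
  push Not at hn
  have step : ∀ c < 2 * N, (r, c, 0) ∉ J ∧ (r, c, 2) ∉ J → (r, c, 4) ∉ J := by
    rintro c hc' ⟨n0, n2⟩ h4
    obtain ⟨k1, -, -, k4⟩ := cell r hr c hc'
    have : (r, c, 1) ∈ J ∨ (r, c, 3) ∈ J := by tauto
    rcases this with h | h
    · by_cases ht : tap r c = true
      · have u := up r c hr hc' (Or.inr h)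
        rcases hn c hc' ht with ⟨h1, h2⟩ | ⟨h1, h2⟩
        · have e : 2 * (c / 2) + 1 = c := by omega
          have := excl (2 * (c / 2)) (by omega) (by omega) (of_decide_eq_true h1)
          rw [e] at this
          exact this u
        · have e : 2 * (c / 2) = c := by omega
          rw [e] at h1
          exact h1 (decide_eq_true u)
      · exact hk _ (k4 15 (by omega) (by omega)) _ h _ h4
          (by simp [Kill, sx, sy, sd, Dis, ox, oy, dp, ht, show r ≠ 0 by omega]; omega)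
    · exact hk _ (k4 16 (by omega) (by omega)) _ h _ h4
        (by simp [Kill, sx, sy, sd, Dis, ox, oy, dp, show r ≠ 0 by omega]; omega)
  have all : ∀ c, c < 2 * N ∧ (r, c, 0) ∉ J ∧ (r, c, 2) ∉ J := by
    intro c
    induction c with
    | zero => exact ⟨by omega, rem _ (by simp [Rem, hr1]), rem _ (by simp [Rem, hr1])⟩
    | succ c ih => exact right r c hr ih.1 (step c ih.1 ih.2)
  exact lt_irrefl _ (all _).1

/-- Which types are selected, given the states of the three cliques of a cell. -/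
def chosen (h v p q : Bool) (t : ℕ) : Bool :=
  [!h && !v, h && !v, !h && v, h && v, !p, p, !q, q].getD t true

/-- Type, depth, witness point, sites that must be absent. -/
def entries : List (ℕ × ℤ × ℤ × ℤ × List (ℤ × ℤ × ℕ)) :=
  [(0, 0, -4, -4, []), (1, 0, 4, -4, []), (2, 0, -4, 4, []), (3, 0, 4, 4, []),
   (4, 0, 12, 0, []), (5, 0, 20, 0, []), (6, 0, 0, 12, []), (7, 0, 0, 20, []),
   (8, 26, -2, -4, [(0, 0, 0)]), (8, 26, 2, -4, [(0, 0, 1)]),
   (9, 26, -2, 3, [(0, 0, 2)]), (9, 26, 2, 3, [(0, 0, 3)]),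
   (10, 26, -4, -2, [(0, 0, 0)]), (10, 26, -4, 2, [(0, 0, 2)]),
   (11, 26, 3, -2, [(0, 0, 1)]), (11, 26, 3, 2, [(0, 0, 3)]),
   (12, 33, 0, 1, [(0, 0, 1), (0, 0, 2), (0, 0, 3)]),
   (12, 33, -1, 0, [(0, 0, 0), (0, 0, 2), (0, 0, 3)]),
   (12, 33, 0, -1, [(0, 0, 0), (0, 0, 1), (0, 0, 3)]),
   (12, 33, -1, -1, [(0, 0, 0), (0, 0, 1), (0, 0, 2)]),
   (13, 17, 13, 0, [(0, 0, 4)]), (13, 17, 19, 0, [(0, 0, 5)]),
   (14, 17, 0, 13, [(0, 0, 6)]), (14, 17, 0, 19, [(0, 0, 7)]),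
   (15, 21, 7, -5, [(0, 0, 1)]), (15, 21, 11, -3, [(0, 0, 4)]), (15, 19, 8, -2, []),
   (16, 21, 7, 5, [(0, 0, 3)]), (16, 21, 11, 3, [(0, 0, 4)]), (16, 19, 8, 2, []),
   (17, 21, 21, -3, [(0, 0, 5)]), (17, 21, 25, -5, [(1, 0, 0)]),
   (18, 21, 21, 3, [(0, 0, 5)]), (18, 21, 25, 5, [(1, 0, 2)]),
   (19, 21, -5, 7, [(0, 0, 2)]), (19, 21, -3, 11, [(0, 0, 6)]),
   (20, 21, 5, 7, [(0, 0, 3)]), (20, 21, 3, 11, [(0, 0, 6)]),
   (21, 21, -3, 21, [(0, 0, 7)]), (21, 21, -5, 25, [(0, 1, 0)]),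
   (22, 21, 3, 21, [(0, 0, 7)]), (22, 21, 5, 25, [(0, 1, 1)])]

theorem entries_near : ∀ e ∈ entries, ∀ dx ∈ ([-1, 0, 1] : List ℤ), ∀ dy ∈ ([-1, 0, 1] : List ℤ),
    ∀ t < 23, (dx, dy, t) = (0, 0, e.1) ∨ (dx, dy, t) ∈ e.2.2.2.2 ∨
      (ox e.1 - e.2.2.1) ^ 2 + (oy e.1 - e.2.2.2.1) ^ 2 + e.2.1 <
        (32 * dx + ox t - e.2.2.1) ^ 2 + (32 * dy + oy t - e.2.2.2.1) ^ 2 +
          (dp t - if t = 15 ∨ t = 16 then 2 else 0) := by decide +kernel

theorem entries_bd : ∀ e ∈ entries, -8 ≤ e.2.2.1 ∧ e.2.2.1 ≤ 28 ∧ -8 ≤ e.2.2.2.1 ∧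
    e.2.2.2.1 ≤ 28 ∧ (ox e.1 - e.2.2.1) ^ 2 + (oy e.1 - e.2.2.2.1) ^ 2 + e.2.1 ≤ 100 := by
  decide +kernel

/-- The absent site `x` is indeed not selected. -/
def Absent (h v p : Bool) (x : ℤ × ℤ × ℕ) : Prop :=
  (x.1 = 0 ∧ x.2.1 = 0 ∧ chosen h v p v x.2.2 = false) ∨
    (x.1 = 1 ∧ x.2.1 = 0 ∧ p = true ∧ (x.2.2 = 0 ∨ x.2.2 = 2)) ∨
    (x.1 = 0 ∧ x.2.1 = 1 ∧ v = true ∧ (x.2.2 = 0 ∨ x.2.2 = 1))

instance (h v p : Bool) (x : ℤ × ℤ × ℕ) : Decidable (Absent h v p x) := by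
  unfold Absent; infer_instance

/-- A table entry that applies to type `t`. -/
def Fits (h v p d₀ d₁ : Bool) (t : ℕ) : Prop :=
  ∃ e ∈ entries, e.1 = t ∧
    e.2.1 = dp t - (if (t = 15 ∧ d₀ = true) ∨ (t = 16 ∧ d₁ = true) then 2 else 0) ∧
    ∀ x ∈ e.2.2.2.2, Absent h v p x

instance (h v p d₀ d₁ : Bool) (t : ℕ) : Decidable (Fits h v p d₀ d₁ t) := by
  unfold Fits; infer_instance

theorem entries_ex : ∀ h v p d₀ d₁ : Bool, (d₀ || !(h && !v && !p)) → (d₁ || !(h && v && !p)) →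
    ∀ t < 23, chosen h v p v t → Fits h v p d₀ d₁ t := by decide +kernel

theorem tbl_bd : ∀ t < 23, -4 ≤ ox t ∧ ox t ≤ 24 ∧ -4 ≤ oy t ∧ oy t ≤ 24 ∧
    0 ≤ (dp t - if t = 15 ∨ t = 16 then 2 else 0) ∧ dp t ≤ 40 := by decide

theorem sum_chosen : ∀ h v p q : Bool, ∑ t ∈ range 23, (chosen h v p q t).toNat = 18 := by decide

theorem sd_bd (tap : ℕ → ℕ → Bool) {s : Site} (hs : s.2.2 < 23) :
    (dp s.2.2 - if s.2.2 = 15 ∨ s.2.2 = 16 then 2 else 0) ≤ sd tap s ∧ sd tap s ≤ 40 := by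
  have := tbl_bd _ hs
  unfold sd
  by_cases h : Dis tap s
  · have h' : s.2.2 = 15 ∨ s.2.2 = 16 := h.imp And.left And.left
    rw [if_pos h, if_pos h']
    omega
  · rw [if_neg h]
    split_ifs <;> omega

/-- Power of the point `(x, y)` with respect to a site. -/
def pw (tap : ℕ → ℕ → Bool) (s : Site) (x y : ℤ) : ℤ := (sx s - x) ^ 2 + (sy s - y) ^ 2 + sd tap s

theorem large_of_states {N : ℕ} {tap : ℕ → ℕ → Bool} (H P : ℕ → ℕ → Bool) (V : ℕ → Bool)
    (hrem : ∀ r ≤ N, ∀ c < 2 * N, ∀ t, chosen (H r c) (V c) (P r c) (V c) t → ¬ Rem N (r, c, t))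
    (h15 : ∀ r ≤ N, ∀ c < 2 * N, H r c → ¬ V c → ¬ P r c → Dis tap (r, c, 15))
    (h16 : ∀ r ≤ N, ∀ c < 2 * N, H r c → V c → ¬ P r c → Dis tap (r, c, 16))
    (hP : ∀ r ≤ N, ∀ c < 2 * N, P r c → H r (c + 1)) :
    ∃ J : Finset Site, (∀ s ∈ J, InGrid N s) ∧ J.card = 36 * N * (N + 1) ∧
      ∀ p ∈ J, ∃ x y : ℤ, |x| ≤ 100 * (N + 1) ∧ |y| ≤ 100 * (N + 1) ∧
        ∀ q ∈ J, q ≠ p → pw tap p x y < pw tap q x y := by
  let J : Finset Site := (range (N + 1) ×ˢ range (2 * N) ×ˢ range 23).filter fun s =>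
    chosen (H s.1 s.2.1) (V s.2.1) (P s.1 s.2.1) (V s.2.1) s.2.2 = true
  have hJ : ∀ r c t, (r, c, t) ∈ J ↔ r ≤ N ∧ c < 2 * N ∧ t < 23 ∧
      chosen (H r c) (V c) (P r c) (V c) t = true := by
    intro r c t
    simp only [J, mem_filter, mem_product, mem_range, Nat.lt_succ_iff, and_assoc]
  have hG : ∀ s ∈ J, InGrid N s := by
    rintro ⟨r, c, t⟩ hs
    obtain ⟨h1, h2, h3, h4⟩ := (hJ r c t).1 hs
    exact ⟨h1, h2, h3, hrem r h1 c h2 t h4⟩
  refine ⟨J, hG, ?_, ?_⟩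
  · rw [card_le_cells hG]
    have : ∀ r ∈ range (N + 1), ∀ c ∈ range (2 * N),
        ∑ t ∈ range 23, (decide ((r, c, t) ∈ J)).toNat = 18 := by
      intro r hr c hc
      rw [← sum_chosen (H r c) (V c) (P r c) (V c)]
      refine sum_congr rfl fun t ht => ?_
      rw [mem_range] at hr hc ht
      congr 1
      rw [Bool.eq_iff_iff, decide_eq_true_iff, hJ]
      exact ⟨fun h => h.2.2.2, fun h => ⟨by omega, hc, ht, h⟩⟩
    rw [sum_congr rfl fun r hr => sum_congr rfl fun c hc => this r hr c hc]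
    simp only [sum_const, card_range, smul_eq_mul]
    ring
  · rintro ⟨r, c, t⟩ hp
    obtain ⟨hr, hc, ht, hch⟩ := (hJ r c t).1 hp
    obtain ⟨e, he, rfl, hd, hx⟩ := entries_ex (H r c) (V c) (P r c) (decide (Dis tap (r, c, 15)))
      (decide (Dis tap (r, c, 16)))
      (by have := h15 r hr c hc; revert this; cases H r c <;> cases V c <;> cases P r c <;> simp)
      (by have := h16 r hr c hc; revert this; cases H r c <;> cases V c <;> cases P r c <;> simp)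
      t ht hch
    obtain ⟨b1, b2, b3, b4, b5⟩ := entries_bd e he
    have hsd : sd tap (r, c, e.1) = e.2.1 := by
      rw [hd, sd]
      congr 1
      refine if_congr ?_ rfl rfl
      simp only [decide_eq_true_iff]
      constructor
      · intro h
        rcases h with h | h
        · exact Or.inl ⟨h.1, Or.inl ⟨rfl, h.2⟩⟩
        · exact Or.inr ⟨h.1, Or.inr ⟨rfl, h.2⟩⟩
      · rintro (⟨h, h'⟩ | ⟨h, h'⟩) <;> rwa [h]
    refine ⟨32 * c + e.2.2.1, 32 * r + e.2.2.2.1, by rw [abs_le]; omega, by rw [abs_le]; omega, ?_⟩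
    rintro ⟨r', c', t'⟩ hq hne
    obtain ⟨hr', hc', ht', hch'⟩ := (hJ r' c' t').1 hq
    have e1 : pw tap (r, c, e.1) (32 * c + e.2.2.1) (32 * r + e.2.2.2.1) =
        (ox e.1 - e.2.2.1) ^ 2 + (oy e.1 - e.2.2.2.1) ^ 2 + e.2.1 := by
      rw [pw, hsd, sx, sy]; ring
    have e2 : (32 * ((c' : ℤ) - c) + ox t' - e.2.2.1) ^ 2 +
        (32 * ((r' : ℤ) - r) + oy t' - e.2.2.2.1) ^ 2 +
        (dp t' - if t' = 15 ∨ t' = 16 then 2 else 0) ≤
        pw tap (r', c', t') (32 * c + e.2.2.1) (32 * r + e.2.2.2.1) := by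
      have := (sd_bd tap (s := (r', c', t')) ht').1
      rw [pw, sx, sy]
      dsimp only at this ⊢
      nlinarith
    rw [e1]
    refine lt_of_lt_of_le ?_ e2
    obtain ⟨a1, a2, a3, a4, a5, -⟩ := tbl_bd t' ht'
    by_cases hdx : (c' : ℤ) - c ∈ ([-1, 0, 1] : List ℤ)
    · by_cases hdy : (r' : ℤ) - r ∈ ([-1, 0, 1] : List ℤ)
      · rcases entries_near e he _ hdx _ hdy t' ht' with h | h | h
        · simp only [Prod.mk.injEq] at h
          exact absurd (Prod.ext (by dsimp only; omega) (Prod.ext (by dsimp only; omega) h.2.2)) hne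
        · exfalso
          rcases hx _ h with ⟨x1, x2, x3⟩ | ⟨x1, x2, x3, x4⟩ | ⟨x1, x2, x3, x4⟩
          · dsimp only at x1 x2 x3
            obtain rfl : c' = c := by omega
            obtain rfl : r' = r := by omega
            rw [hch'] at x3
            exact absurd x3 (by simp)
          · dsimp only at x1 x2 x3 x4
            obtain rfl : c' = c + 1 := by omega
            obtain rfl : r' = r := by omega
            rw [hP r' hr c hc x3] at hch'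
            rcases x4 with rfl | rfl <;> simp [chosen] at hch'
          · dsimp only at x1 x2 x3 x4
            obtain rfl : c' = c := by omega
            rw [x3] at hch'
            rcases x4 with rfl | rfl <;> simp [chosen] at hch'
        · exact h
      · simp only [List.mem_cons, List.not_mem_nil, or_false, not_or] at hdy
        have : 32 ≤ 32 * ((r' : ℤ) - r) + oy t' - e.2.2.2.1 ∨
          32 * ((r' : ℤ) - r) + oy t' - e.2.2.2.1 ≤ -32 := by omega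
        have h0 := sq_nonneg (32 * ((c' : ℤ) - c) + ox t' - e.2.2.1)
        rcases this with h | h <;> nlinarith
    · simp only [List.mem_cons, List.not_mem_nil, or_false, not_or] at hdx
      have : 32 ≤ 32 * ((c' : ℤ) - c) + ox t' - e.2.2.1 ∨
        32 * ((c' : ℤ) - c) + ox t' - e.2.2.1 ≤ -32 := by omega
      have h0 := sq_nonneg (32 * ((r' : ℤ) - r) + oy t' - e.2.2.2.1)
      rcases this with h | h <;> nlinarith

theorem large_of_sat {N : ℕ} {tap : ℕ → ℕ → Bool} (h : GridSat N tap) :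
    ∃ J : Finset Site, (∀ s ∈ J, InGrid N s) ∧ J.card = 36 * N * (N + 1) ∧
      ∀ p ∈ J, ∃ x y : ℤ, |x| ≤ 100 * (N + 1) ∧ |y| ≤ 100 * (N + 1) ∧
        ∀ q ∈ J, q ≠ p → pw tap p x y < pw tap q x y := by
  obtain ⟨v, hv⟩ := h
  choose! g hg using hv
  refine large_of_states (fun r c => if r = 0 then v (c / 2) else decide (c ≤ g r))
    (fun r c => if r = 0 then v (c / 2) && decide (c % 2 = 0) else decide (c < g r))
    (fun c => decide ¬ (v (c / 2) = true ↔ c % 2 = 0)) ?_ ?_ ?_ ?_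
  · intro r hr c hc t ht hR
    rcases hR with ⟨h1, h2, h3⟩ | ⟨h1, h2, h3⟩ | ⟨h1, h2, h3⟩ | ⟨h1, h2⟩ <;>
      dsimp only at h1 h2
    · subst h2
      have : r ≠ 0 := by omega
      rcases h3 with h3 | h3 <;> dsimp only at h3 <;> subst h3 <;> simp [chosen, this] at ht
    · dsimp only at h3
      subst h1 h3
      simp [chosen, h2] at ht
    · dsimp only at h3
      subst h1 h3
      simp [chosen, h2] at ht
    · subst h2
      by_cases h0 : r = 0
      · simp [chosen, h0] at ht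
        omega
      · have := (hg r (by omega) hr).1
        simp [chosen, h0] at ht
        omega
  · intro r hr c hc h1 h2 h3
    by_cases h0 : r = 0
    · simp [h0] at h1 h3
      exact Or.inl ⟨rfl, Or.inr ⟨h0, by have := h3 h1; dsimp only; omega⟩⟩
    · simp [h0] at h1 h3
      obtain rfl : c = g r := by omega
      exact Or.inl ⟨rfl, Or.inl ⟨by dsimp only; omega, (hg r (by omega) hr).2.1⟩⟩
  · intro r hr c hc h1 h2 h3
    by_cases h0 : r = 0
    · simp [h0] at h1 h3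
      exact Or.inr ⟨rfl, h0, by have := h3 h1; dsimp only; omega⟩
    · simp [h0] at h1 h3
      obtain rfl : c = g r := by omega
      exact absurd (hg r (by omega) hr).2.2 (of_decide_eq_true h2)
  · intro r hr c hc h1
    by_cases h0 : r = 0
    · simp [h0] at h1 ⊢
      rw [show (c + 1) / 2 = c / 2 by omega]
      exact h1.1
    · simp [h0] at h1 ⊢
      omega

end Pool.Agent.P.MP_e4fe5e_lc
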