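import Pool.Agent.P.MP_e4fe5e_lc.Time

/-! The counting argument of Fortnow and Santhanam, and the main theorem. -/

namespace Pool.Agent.P.MP_e4fe5e_lc

open Pool.Agent.Lib.PolyTime N68a2faeb N487b59b3 Finset

theorem cover_half {σ : Type} [DecidableEq σ] {t : ℕ} (ht : 1 ≤ t) (F : List σ → ℕ)
    (X : Finset σ) (_hX : X.Nonempty)
    (hF : ∀ w : List σ, w.length = t → (∀ x ∈ w, x ∈ X) → F w < 2 ^ t) :
    ∃ (y : ℕ) (C : Finset σ), C ⊆ X ∧ X.card ≤ 2 * C.card ∧
      ∀ x ∈ C, ∃ w : List σ, w.length = t ∧ (∀ z ∈ w, z ∈ X) ∧ x ∈ w ∧ F w = y := by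
  classical
  let C : ℕ → Finset σ := fun y =>
    X.filter fun x => ∃ w : List σ, w.length = t ∧ (∀ z ∈ w, z ∈ X) ∧ x ∈ w ∧ F w = y
  by_contra hn
  have hC : ∀ y, 2 * (C y).card < X.card := by
    intro y
    by_contra h
    exact hn ⟨y, C y, filter_subset _ _, not_lt.1 h, fun x hx => (mem_filter.1 hx).2⟩
  have h1 : Fintype.piFinset (fun _ : Fin t => X) ⊆
      (range (2 ^ t)).biUnion fun y => Fintype.piFinset fun _ : Fin t => C y := by
    intro f hf
    rw [Fintype.mem_piFinset] at hf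
    have hw : ∀ z ∈ List.ofFn f, z ∈ X := by simpa [List.mem_ofFn'] using hf
    refine mem_biUnion.2 ⟨F (List.ofFn f), mem_range.2 (hF _ (by simp) hw),
      Fintype.mem_piFinset.2 fun i => mem_filter.2 ⟨hf i, List.ofFn f, by simp, hw, ?_, rfl⟩⟩
    exact List.mem_ofFn.2 ⟨i, rfl⟩
  have h2 := (card_le_card h1).trans card_biUnion_le
  simp only [Fintype.card_piFinset, prod_const, card_univ, Fintype.card_fin] at h2
  have h3 : ∑ y ∈ range (2 ^ t), (2 * (C y).card) ^ t < ∑ _y ∈ range (2 ^ t), X.card ^ t :=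
    sum_lt_sum_of_nonempty ⟨0, by simp⟩ fun y _ => Nat.pow_lt_pow_left (hC y) (by omega)
  simp only [mul_pow, ← mul_sum, sum_const, card_range, smul_eq_mul] at h3
  exact (Nat.lt_of_mul_lt_mul_left h3).not_ge h2

theorem cover_all {σ : Type} [DecidableEq σ] {t : ℕ} (ht : 1 ≤ t) (F : List σ → ℕ) (n : ℕ)
    (X : Finset σ) (hn : X.card < 2 ^ n)
    (hF : ∀ w : List σ, w.length = t → (∀ x ∈ w, x ∈ X) → F w < 2 ^ t) :
    ∃ Z : List ℕ, Z.length ≤ n ∧
      (∀ y ∈ Z, ∃ w : List σ, w.length = t ∧ (∀ z ∈ w, z ∈ X) ∧ F w = y) ∧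
      ∀ x ∈ X, ∃ w : List σ, w.length = t ∧ (∀ z ∈ w, z ∈ X) ∧ x ∈ w ∧ F w ∈ Z := by
  induction n generalizing X with
  | zero =>
    obtain rfl : X = ∅ := card_eq_zero.1 (by omega)
    exact ⟨[], by simp⟩
  | succ n ih =>
    rcases X.eq_empty_or_nonempty with rfl | hX
    · exact ⟨[], by simp⟩
    obtain ⟨y, C, hC, hc, hy⟩ := cover_half ht F X hX hF
    obtain ⟨Z, h1, h2, h3⟩ := ih (X \ C) (by rw [card_sdiff_of_subset hC]; omega)
      fun w hw h => hF w hw fun x hx => (mem_sdiff.1 (h x hx)).1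
    refine ⟨y :: Z, by simpa using h1, ?_, fun x hx => ?_⟩
    · intro y' hy'
      rcases List.mem_cons.1 hy' with rfl | hy'
      · obtain ⟨x, hx⟩ : C.Nonempty := card_pos.1 (by have := card_pos.2 hX; omega)
        obtain ⟨w, a, b, -, c⟩ := hy x hx
        exact ⟨w, a, b, c⟩
      · obtain ⟨w, a, b, c⟩ := h2 y' hy'
        exact ⟨w, a, fun z hz => (mem_sdiff.1 (b z hz)).1, c⟩
    · by_cases hxC : x ∈ C
      · obtain ⟨w, a, b, c, d⟩ := hy x hxC
        exact ⟨w, a, b, c, by simp [d]⟩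
      · obtain ⟨w, a, b, c, d⟩ := h3 x (mem_sdiff.2 ⟨hx, hxC⟩)
        exact ⟨w, a, fun z hz => (mem_sdiff.1 (b z hz)).1, c, by simp [d]⟩

theorem poly_le_two_pow (P : Polynomial ℕ) : ∃ j₀, ∀ j, j₀ ≤ j → P.eval j ≤ 2 ^ j := by
  have key : ∀ c d : ℕ, ∀ᶠ j : ℕ in Filter.atTop, c * j ^ d ≤ 2 ^ j := by
    intro c d
    have h := (tendsto_pow_const_div_const_pow_of_one_lt d (show (1 : ℝ) < 2 by norm_num)).const_mul
      (c : ℝ)
    rw [mul_zero] at h
    filter_upwards [h.eventually (gt_mem_nhds one_pos)] with j hj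
    rw [← mul_div_assoc, div_lt_one (by positivity)] at hj
    exact_mod_cast hj.le
  obtain ⟨j₀, h⟩ := Filter.eventually_atTop.1 ((key (P.eval 1) P.natDegree).and
    (Filter.eventually_ge_atTop 1))
  refine ⟨j₀, fun j hj => le_trans ?_ (h j hj).1⟩
  rw [Polynomial.eval_eq_sum_range, Polynomial.eval_eq_sum_range, sum_mul]
  refine sum_le_sum fun i hi => ?_
  rw [one_pow, mul_one]
  exact Nat.mul_le_mul_left _ (Nat.pow_le_pow_right (h j hj).2 (by simpa [Nat.lt_succ_iff] using hi))

theorem exists_arity (P : Polynomial ℕ) : ∃ T : Polynomial ℕ, ∀ n,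
    1 ≤ T.eval n ∧ P.eval (n + (T.eval n).size) ≤ T.eval n := by
  obtain ⟨j₀, h⟩ := poly_le_two_pow (Polynomial.C 4 * P.comp (Polynomial.C 2 * Polynomial.X))
  refine ⟨Polynomial.C (2 ^ j₀) + P.comp (Polynomial.C 2 * Polynomial.X), fun n => ?_⟩
  simp only [Polynomial.eval_add, Polynomial.eval_C, Polynomial.eval_comp, Polynomial.eval_mul,
    Polynomial.eval_X] at h ⊢
  set t := 2 ^ j₀ + P.eval (2 * n) with ht
  have h0 : 0 < 2 ^ j₀ := by positivity
  refine ⟨by omega, ?_⟩
  rcases le_total t.size n with hs | hs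
  · exact (eval_mono P (show n + t.size ≤ 2 * n by omega)).trans (by omega)
  · have h1 : j₀ < t.size := Nat.lt_size.2 (by omega)
    have h2 := h t.size h1.le
    have h3 : 2 ^ (t.size - 1) ≤ t := Nat.lt_size.1 (by omega)
    have h4 : 2 ^ t.size = 2 * 2 ^ (t.size - 1) := by
      rw [← pow_succ']; congr 1; omega
    exact (eval_mono P (show n + t.size ≤ 2 * t.size by omega)).trans (by omega)

theorem main (h : HasPolyKernel) : NP ⊆ coNPpoly := by
  classical
  obtain ⟨K, g, hK, hspec⟩ := h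
  rw [isPolyTime_iff] at hK
  intro L hL
  obtain ⟨f, hf, hfL⟩ := cook hL
  obtain ⟨q, hq⟩ := hf.size
  let I : ℕ → List Str → Instance := fun n w => comp (q.eval (3 * n) + 1) (w.map f)
  let F : ℕ → List Str → ℕ := fun n w => Cook.num (summ (K (I n w)))
  have hI : ∀ n w, (∀ x ∈ w, x.length = n) → Valid (I n w) ∧ (Yes (I n w) ↔ ∃ x ∈ w, L x) := by
    intro n w hw
    obtain ⟨h1, h2⟩ := comp_spec (N := q.eval (3 * n) + 1) (φs := w.map f) (by omega) (by
      intro φ hφ
      obtain ⟨x, hx, rfl⟩ := List.mem_map.1 hφ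
      have := hq x
      rw [sz_str, hw x hx] at this
      exact this.trans (Nat.le_succ _))
    exact ⟨h1, h2.trans (by simp [hfL])⟩
  obtain ⟨P, hP⟩ : ∃ P : Polynomial ℕ, ∀ m,
      P.eval m = 4 * g.eval (pK (q.eval (3 * m) + 1) m) + 4 +
        3 * g.eval (pK (q.eval (3 * m) + 1) m) ^ 5 + 1 := by
    let Q : Polynomial ℕ := q.comp (3 * Polynomial.X) + 1
    let R : Polynomial ℕ := g.comp (4 * (64 * (Polynomial.X + 1) ^ 3 * (46 * Q * (Q + 1)) + 1) +
      36 * Q * (Q + 1))
    exact ⟨4 * R + 4 + 3 * R ^ 5 + 1, fun m => by simp [R, Q, pK, pW]⟩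
  obtain ⟨T, hT⟩ := exists_arity P
  have hF : ∀ n w, w.length = T.eval n → (∀ x ∈ w, x.length = n) → F n w < 2 ^ T.eval n := by
    intro n w hw h
    refine (ofBits_lt _).trans_le (Nat.pow_le_pow_right (by norm_num) (le_trans ?_ (hT n).2))
    have h1 := sz_summ (K (I n w))
    have h2 := (hspec _ (hI n w h).1).2.2
    have h3 : (I n w).2 ≤ pK (q.eval (3 * (n + (T.eval n).size)) + 1) (n + (T.eval n).size) := by
      have := eval_mono q (show 3 * n ≤ 3 * (n + (T.eval n).size) by omega)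
      simp only [I, comp, List.length_map, hw, pK, pW]
      gcongr
      omega
    have h4 := h2.trans (eval_mono g h3)
    have h5 := Nat.pow_le_pow_left h4 5
    rw [hP, List.length_append]
    change sz (summ (K (I n w))) + 1 ≤ _
    omega
  have hZ := fun n => cover_all (hT n).1 (F n) (n + 1)
    ((allStr n).toFinset.filter fun x => ¬ L x)
    (((card_filter_le _ _).trans (List.toFinset_card_le _)).trans_lt (by
      rw [length_allStr]; exact Nat.pow_lt_pow_right (by norm_num) (by omega)))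
    fun w hw h => hF n w hw fun x hx => by simpa [mem_allStr] using (mem_filter.1 (h x hx)).1
  choose Z hZ1 hZ2 hZ3 using hZ
  simp only [mem_filter, List.mem_toFinset, mem_allStr] at hZ2 hZ3
  let dx : Str → Str := fun y => decStr ((blocks y).headD [])
  let dz : Str → List ℕ := fun y => (blocks ((blocks y).tail.map (·.headD false))).map ofBits
  have hd : ∀ (x : Str) (z : List ℕ), dx (bitEncode (x, (bitEncode z : Str))) = x ∧
      dz (bitEncode (x, (bitEncode z : Str))) = z := by
    intro x z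
    have e : blocks (bitEncode (x, (bitEncode z : Str))) =
        bitEncode x :: (bitEncode z : Str).map bitEncode := by
      rw [← blocks_flatten (bitEncode x :: _)]
      rfl
    refine ⟨by simp [dx, e, decStr_enc], ?_⟩
    have e2 : ((bitEncode z : Str).map bitEncode).map (·.headD false) = bitEncode z := by
      rw [List.map_map]
      exact List.map_id' _
    simp only [dz, e, List.tail_cons, e2, blocks_enc, List.map_map]
    conv_rhs => rw [← List.map_id z]
    exact List.map_congr_left fun n _ => by simp [enc_nat, ofBits_bits]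
  let V : Str × Str → Bool := fun p => decide (dx p.1 ∈ blocks p.2) &&
    (blocks p.2).all (fun x => decide (x.length = (dx p.1).length)) &&
    decide (F (dx p.1).length (blocks p.2) ∈ dz p.1)
  have hV : PT V := by
    have h1 : PT dx := by unfold dx; fun_prop
    have h2 : PT dz := by unfold dz; fun_prop
    have h3 : PT fun p : Str × List Str => F p.1.length p.2 := by unfold F I; fun_prop
    have h4 : PT fun p : Str × Str => F (dx p.1).length (blocks p.2) :=
      h3.comp (g := fun p : Str × Str => (dx p.1, blocks p.2)) (by fun_prop)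
    exact PT.and (by fun_prop) (PT.decide (PTP.mem (by fun_prop) h4))
  let p : Polynomial ℕ := T * (2 * Polynomial.X + 1)
  let A : DecisionProblem := fun y => decide (∃ w : Str, w.length ≤ p.eval y.length ∧ V (y, w))
  have hA : A ∈ NP := mem_NP_iff.2 ⟨p, V, hV, fun y => by simp [A]⟩
  refine ⟨Aᶜ, by simpa [coNP] using hA, (Polynomial.X + 1) * (2 * T + 1),
    fun n => bitEncode (Z n), fun n => ?_, fun x => ?_⟩
  · have : ∀ y ∈ Z n, sz y ≤ T.eval n := by
      intro y hy
      obtain ⟨w, h1, h2, rfl⟩ := hZ2 n y hy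
      exact sz_le_iff.2 (hF n w h1 fun z hz => (h2 z hz).1)
    refine (sz_le_of_forall this).trans ?_
    simpa using hZ1 n
  · obtain ⟨d1, d2⟩ := hd x (Z x.length)
    have key : (∃ w : Str, w.length ≤ p.eval (bitEncode (x, (bitEncode (Z x.length) : Str))).length ∧
        V (bitEncode (x, (bitEncode (Z x.length) : Str)), w)) ↔ ¬ L x := by
      simp only [V, d1, d2, Bool.and_eq_true, decide_eq_true_iff, List.all_eq_true]
      constructor
      · rintro ⟨w, -, ⟨h1, h2⟩, h3⟩ hx
        obtain ⟨w', -, h4, h5⟩ := hZ2 _ _ h3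
        obtain ⟨v1, y1⟩ := hI _ _ h2
        obtain ⟨v2, y2⟩ := hI _ w' fun z hz => (h4 z hz).1
        obtain ⟨z, hz, hz'⟩ := y2.1 ((hspec _ v2).2.1.2 (yes_of_summ (hspec _ v1).1 (hspec _ v2).1
          (Cook.num_inj h5.symm) ((hspec _ v1).2.1.1 (y1.2 ⟨x, h1, hx⟩))))
        exact (h4 z hz).2 hz'
      · intro hx
        obtain ⟨w, h1, h2, h3, h4⟩ := hZ3 _ x ⟨rfl, hx⟩
        refine ⟨(w.map delimit).flatten, ?_, ?_⟩
        · have e : (w.map delimit).flatten.length = T.eval x.length * (2 * x.length + 1) := by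
            rw [List.length_flatten, List.map_map, List.map_congr_left
              (g := fun _ => 2 * x.length + 1) fun z hz => by simp [(h2 z hz).1]]
            simp [h1]
          have e2 : x.length ≤ (bitEncode (x, (bitEncode (Z x.length) : Str))).length := by
            change _ ≤ sz _
            rw [sz_pair, sz_str]
            omega
          refine le_trans ?_ (eval_mono p e2)
          simp [p, e]
        · rw [blocks_flatten]
          exact ⟨⟨h3, fun z hz => (h2 z hz).1⟩, h4⟩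
    change L x = !(decide _)
    rw [Bool.eq_iff_iff]
    simp only [Bool.not_eq_true', decide_eq_false_iff_not, key, not_not]

end Pool.Agent.P.MP_e4fe5e_lc
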