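import Pool.Agent.P.MP_e4fe5e_lc.Conv
import Pool.Agent.Lib.PolyTime.Rat

/-! If every NP language is decided in polynomial time, a one-point kernel exists. -/

namespace Pool.Agent.P.MP_e4fe5e_lc.Sep

open Pool.Agent.Lib.PolyTime N68a2faeb

variable {α : Type} [N487b59b3 α]

@[fun_prop] theorem pt_vol {a b c d : α → Pt} (ha : PT a) (hb : PT b) (hc : PT c) (hd : PT d) :
    PT fun x => vol (a x) (b x) (c x) (d x) := by
  unfold vol; fun_prop

@[fun_prop] theorem ptp_atRatio {p a b : α → Pt} {t : α → ℚ} (hp : PT p) (ha : PT a) (hb : PT b)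
    (ht : PT t) : PTP fun x => AtRatio (p x) (a x) (b x) (t x) := by
  unfold AtRatio; fun_prop

@[fun_prop] theorem ptp_inSeg {p a b : α → Pt} (hp : PT p) (ha : PT a) (hb : PT b) :
    PTP fun x => InSeg (p x) (a x) (b x) := by
  unfold InSeg; fun_prop

@[fun_prop] theorem ptp_inTet {p a b c d : α → Pt} (hp : PT p) (ha : PT a) (hb : PT b) (hc : PT c)
    (hd : PT d) : PTP fun x => InTet (p x) (a x) (b x) (c x) (d x) := by
  unfold InTet; fun_prop

theorem ptp_bad {Q : α → List Pt} (hQ : PT Q) : PTP fun x => Bad (Q x) := by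
  unfold Bad
  refine PTP.exists_mem hQ (PTP.exists_mem (by fun_prop) (PTP.exists_mem (by fun_prop) ?_))
  refine PTP.and (by fun_prop) (PTP.and (by fun_prop) (PTP.or (by fun_prop) ?_))
  refine PTP.exists_mem (by fun_prop) (PTP.exists_mem (by fun_prop) ?_)
  fun_prop

/-- The points chosen by a mask. -/
def sel (S : List Pt) (w : List Bool) : List Pt := ((S.zip w).filter fun q => q.2).map fun q => q.1

theorem sel_sublist (S : List Pt) (w : List Bool) : (sel S w).Sublist S := by
  induction S generalizing w with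
  | nil => simp [sel]
  | cons a S ih =>
    cases w with
    | nil => simp [sel]
    | cons b w =>
      have := ih w
      cases b
      · simpa [sel] using this.cons a
      · simpa [sel] using this

theorem sel_map (S : List Pt) (f : Pt → Bool) : sel S (S.map f) = S.filter f := by
  induction S with
  | nil => simp [sel]
  | cons a S ih =>
    unfold sel at ih ⊢
    cases h : f a <;> simp [h, ih]

@[fun_prop] theorem pt_sel {S : α → List Pt} {w : α → List Bool} (hS : PT S) (hw : PT w) :
    PT fun x => sel (S x) (w x) := by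
  unfold sel; fun_prop

def encPt (p : Pt) : List ℕ :=
  [p.1.num.toNat, (-p.1.num).toNat, p.1.den, p.2.1.num.toNat, (-p.2.1.num).toNat, p.2.1.den,
    p.2.2.num.toNat, (-p.2.2.num).toNat, p.2.2.den]

def decQ (a b c : ℕ) : ℚ := ((a : ℚ) - (b : ℚ)) / (c : ℚ)

theorem decQ_enc (q : ℚ) : decQ q.num.toNat (-q.num).toNat q.den = q := by
  have h : ((q.num.toNat : ℤ) - ((-q.num).toNat : ℤ)) = q.num := by omega
  have h' : ((q.num.toNat : ℚ) - ((-q.num).toNat : ℚ)) = q.num := by exact_mod_cast h
  rw [decQ, h', Rat.num_div_den]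

def decPt (r : List ℕ) : Pt :=
  (decQ (r.getD 0 0) (r.getD 1 0) (r.getD 2 0), decQ (r.getD 3 0) (r.getD 4 0) (r.getD 5 0),
    decQ (r.getD 6 0) (r.getD 7 0) (r.getD 8 0))

theorem decPt_enc (p : Pt) : decPt (encPt p) = p := by
  simp [decPt, encPt, decQ_enc]

/-- An instance as a bit string. -/
def code (I : Instance) : List Bool := N487b59b3.bitEncode ([I.2] :: I.1.map encPt)

/-- Reading an instance from a bit string. -/
def dec (x : List Bool) : Instance :=
  ((decCode x).tail.map decPt, ((decCode x).headD []).headD 0)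

theorem dec_code (I : Instance) : dec (code I) = I := by
  simp [dec, code, decCode_enc, Function.comp_def, decPt_enc]

theorem pt_code : PT code := by
  unfold code encPt; fun_prop

theorem pt_dec : PT dec := by
  unfold dec decPt decQ; fun_prop

/-- The verifier. -/
def Ver (x w : List Bool) : Prop :=
  w.length ≤ x.length ∧ (sel (dec x).1 w).length = (dec x).2 ∧ ¬ Bad (sel (dec x).1 w)

open Classical in
/-- The language of the strings with an accepted mask. -/
noncomputable def lang : DecisionProblem := fun x => decide (∃ w, Ver x w)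

theorem lang_mem : lang ∈ NP := by
  have hd := pt_dec
  refine mem_NP_of (β := List Bool) Ver id ?_ PT.id Polynomial.X
    (fun x w h => by simpa [lang] using ⟨w, h⟩) fun x hx => ?_
  · unfold Ver
    have h1 : PT fun p : List Bool × List Bool => dec p.1 := hd.comp PT.id.fst
    have h2 : PT fun p : List Bool × List Bool => sel (dec p.1).1 p.2 := pt_sel h1.fst PT.id.snd
    exact PTP.and (by fun_prop) (PTP.and (PTP.eq h2.length h1.snd) (ptp_bad h2).not)
  · obtain ⟨w, hw⟩ : ∃ w, Ver x w := by simpa [lang] using hx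
    exact ⟨w, by simpa using hw.1, hw⟩

theorem lang_code {I : Instance} (hI : Valid I) : lang (code I) = true ↔ Yes I := by
  classical
  obtain ⟨hn, hg, -⟩ := hI
  simp only [lang, decide_eq_true_eq, Ver, dec_code]
  constructor
  · rintro ⟨w, -, hl, hb⟩
    have hs := sel_sublist I.1 w
    refine ⟨(sel I.1 w).toFinset, fun q hq => hs.subset (by simpa using hq), ?_, ?_⟩
    · rw [List.toFinset_card_of_nodup (hn.sublist hs), hl]
    · by_contra hc
      refine hb (bad_of_not_convex (fun a ha b hb c hc d hd =>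
        hg a (hs.subset ha) b (hs.subset hb) c (hs.subset hc) d (hs.subset hd)) ?_)
      simpa using hc
  · rintro ⟨Q, hQ, hk, hc⟩
    have e : (I.1.filter fun q => decide (q ∈ Q)).toFinset = Q := by
      ext q
      simpa using hQ q
    refine ⟨I.1.map fun q => decide (q ∈ Q), ?_, ?_, fun hb => not_convex_of_bad hb ?_⟩
    · have := length_le_sz ([I.2] :: I.1.map encPt)
      simp only [List.length_cons, List.length_map, sz] at this ⊢
      unfold code
      omega
    · rw [sel_map, ← List.toFinset_card_of_nodup (hn.filter _), e, hk]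
    · rw [sel_map]
      rw [← e] at hc
      simpa using hc

theorem valid_one : Valid ([(0, 0, 0)], 1) ∧ Yes ([(0, 0, 0)], 1) := by
  refine ⟨⟨by simp, ?_, by simp⟩, {(0, 0, 0)}, by simp, by simp, ?_⟩
  · intro a ha b hb c _ d _ h
    simp only [List.mem_singleton] at ha hb
    simp [ha, hb] at h
  · intro q hq
    simp only [Finset.coe_singleton, Set.image_singleton, Set.mem_singleton_iff] at hq
    simp [hq]

theorem valid_zero : Valid ([], 1) ∧ ¬ Yes ([], 1) := by
  refine ⟨⟨by simp, by simp, by simp⟩, ?_⟩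
  rintro ⟨Q, hQ, hk, -⟩
  obtain ⟨q, rfl⟩ := Finset.card_eq_one.1 hk
  simpa using hQ q

theorem kernel (h : ∀ L ∈ NP, IsPolyTime L) :
    ∃ K : Instance → Instance, IsPolyTime K ∧ ∀ I, Valid I →
      Valid (K I) ∧ (Yes I ↔ Yes (K I)) ∧ (K I).2 = 1 ∧ (K I).1.length ≤ 1 := by
  have hL : PT lang := isPolyTime_iff.1 (h lang lang_mem)
  have hc := pt_code
  refine ⟨fun I => bif lang (code I) then ([(0, 0, 0)], 1) else ([], 1),
    PT.isPolyTime (PT.cond (hL.comp hc) (PT.const _) (PT.const _)), fun I hI => ?_⟩
  have e := lang_code hI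
  cases hb : lang (code I)
  · have hn : ¬ Yes I := fun hy => by simp [e.2 hy] at hb
    simp only [hb, cond_false]
    exact ⟨valid_zero.1, iff_of_false hn valid_zero.2, trivial, by simp⟩
  · simp only [hb, cond_true]
    exact ⟨valid_one.1, iff_of_true (e.1 hb) valid_one.2, trivial, by simp⟩

theorem separates (h : ¬ HasPolyKernel) : ∃ L ∈ NP, ¬ IsPolyTime L := by
  by_contra hc
  push Not at hc
  obtain ⟨K, hK, h1⟩ := kernel hc
  exact h ⟨K, 1, hK, fun I hI => ⟨(h1 I hI).1, (h1 I hI).2.1, by simpa using (h1 I hI).2.2.2⟩⟩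

end Pool.Agent.P.MP_e4fe5e_lc.Sep
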