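import Pool.Agent.P.MP_e4fe5e_lc.Support

/-! An explicit set of `2 ^ j` points whose subsets in convex position have `O(j ^ 3)` points,
also after small perturbations. -/

namespace Pool.Agent.P.MP_e4fe5e_lc

open Finset

/-- Binary digit. -/
def bit (n i : ℕ) : ℕ := n / 2 ^ i % 2

/-- The first `j` binary digits of `n` read in base `R`. -/
def val (R j n : ℕ) : ℕ :=
  ((List.range j).map fun i => n / 2 ^ (min i j) % 2 * R ^ (min i j)).sum

theorem val_eq (R j n : ℕ) : val R j n = ∑ i ∈ range j, bit n i * R ^ i := by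
  rw [val, ← List.sum_toFinset _ List.nodup_range, List.toFinset_range]
  refine sum_congr rfl fun i hi => ?_
  rw [min_eq_left (mem_range.1 hi).le, bit]

theorem bit_le (n i : ℕ) : bit n i ≤ 1 := by unfold bit; omega

theorem val_le {R : ℕ} (hR : 2 ≤ R) (j n : ℕ) : val R j n ≤ R ^ j := by
  rw [val_eq]
  refine le_trans (sum_le_sum fun i _ => ?_)
    (Nat.geomSum_lt hR (s := range j) fun k hk => mem_range.1 hk).le
  have := bit_le n i
  nlinarith [Nat.zero_le (R ^ i)]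

theorem geom_le {R : ℝ} (hR : 16 ≤ R) (i : ℕ) : ∑ k ∈ range i, R ^ k ≤ R ^ i / 15 := by
  induction i with
  | zero => simp
  | succ i ih =>
    rw [sum_range_succ, pow_succ]
    have : 0 ≤ R ^ i := by positivity
    nlinarith

theorem exists_level {j s s' : ℕ} (hs : s < 2 ^ j) (hs' : s' < 2 ^ j) (hne : s ≠ s') :
    ∃ i < j, bit s i ≠ bit s' i ∧ ∃ σ : ℝ, (σ = 1 ∨ σ = -1) ∧ ∀ R : ℕ, 16 ≤ R →
      |σ * ((val R j s : ℝ) - val R j s') - R ^ i| ≤ (R : ℝ) ^ i / 15 := by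
  classical
  have hex : ((range j).filter fun i => bit s i ≠ bit s' i).Nonempty := by
    by_contra hn
    apply hne
    refine Nat.eq_of_testBit_eq fun i => ?_
    by_cases hi : i < j
    · have : bit s i = bit s' i := by
        by_contra h
        exact hn ⟨i, by simp [hi, h]⟩
      rw [Nat.testBit_eq_decide_div_mod_eq, Nat.testBit_eq_decide_div_mod_eq]
      unfold bit at this
      rw [this]
    · have h2 : 2 ^ j ≤ 2 ^ i := Nat.pow_le_pow_right (by norm_num) (by omega)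
      rw [Nat.testBit_lt_two_pow (hs.trans_le h2), Nat.testBit_lt_two_pow (hs'.trans_le h2)]
  obtain ⟨i, hi, hmax⟩ := exists_max_image _ id hex
  simp only [mem_filter, mem_range, id] at hi hmax
  refine ⟨i, hi.1, hi.2, (bit s i : ℝ) - bit s' i, ?_, fun R hR => ?_⟩
  · have h1 := bit_le s i
    have h2 := bit_le s' i
    have h3 := hi.2
    have : (bit s i = 1 ∧ bit s' i = 0) ∨ (bit s i = 0 ∧ bit s' i = 1) := by omega
    rcases this with ⟨a, b⟩ | ⟨a, b⟩ <;> simp [a, b]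
  · have hR' : (16 : ℝ) ≤ R := by exact_mod_cast hR
    have e : (val R j s : ℝ) - val R j s' =
        ∑ k ∈ range (i + 1), ((bit s k : ℝ) - bit s' k) * R ^ k := by
      rw [val_eq, val_eq]
      push_cast
      rw [← sum_sub_distrib]
      symm
      refine (sum_subset (range_subset_range.2 hi.1) fun k hk hk' => ?_).trans
        (sum_congr rfl fun k _ => by ring)
      have : bit s k = bit s' k := by
        by_contra h
        have := hmax k ⟨mem_range.1 hk, h⟩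
        simp at hk'
        omega
      simp [this]
    have hb : ∀ k, |(bit s k : ℝ) - bit s' k| ≤ 1 := by
      intro k
      have h1 : (bit s k : ℝ) ≤ 1 := by exact_mod_cast bit_le s k
      have h2 : (bit s' k : ℝ) ≤ 1 := by exact_mod_cast bit_le s' k
      have h3 : (0 : ℝ) ≤ bit s k := by positivity
      have h4 : (0 : ℝ) ≤ bit s' k := by positivity
      rw [abs_le]; constructor <;> linarith
    have hsq : ((bit s i : ℝ) - bit s' i) * ((bit s i : ℝ) - bit s' i) = 1 := by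
      have h1 := bit_le s i
      have h2 := bit_le s' i
      have h3 := hi.2
      have : (bit s i = 1 ∧ bit s' i = 0) ∨ (bit s i = 0 ∧ bit s' i = 1) := by omega
      rcases this with ⟨a, b⟩ | ⟨a, b⟩ <;> simp [a, b]
    rw [e, sum_range_succ, mul_add, ← mul_assoc, hsq, one_mul, add_sub_cancel_right, abs_mul]
    refine le_trans (mul_le_of_le_one_left (abs_nonneg _) (hb i)) ?_
    refine (abs_sum_le_sum_abs _ _).trans (le_trans (sum_le_sum fun k _ => ?_) (geom_le hR' i))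
    rw [abs_mul, abs_of_nonneg (by positivity : (0 : ℝ) ≤ R ^ k)]
    exact mul_le_of_le_one_left (by positivity) (hb k)

theorem exists_thr {x y R : ℝ} (hy : 0 ≤ y) (hR : 16 ≤ R) (j : ℕ) :
    ∃ a ≤ j, ∀ i < j, (i < a → 4 * (y * R ^ i) ≤ x) ∧ (a < i → 4 * x ≤ y * R ^ i) := by
  classical
  have hex : ∃ i, j ≤ i ∨ x < 4 * (y * R ^ i) := ⟨j, Or.inl le_rfl⟩
  refine ⟨Nat.find hex, Nat.find_min' hex (Or.inl le_rfl), fun i hi => ⟨fun h => ?_, fun h => ?_⟩⟩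
  · have := Nat.find_min hex h
    push Not at this
    exact this.2
  · rcases Nat.find_spec hex with h1 | h1
    · omega
    · obtain ⟨k, rfl⟩ := Nat.exists_eq_add_of_lt h
      have h2 : (1 : ℝ) ≤ R ^ k := one_le_pow₀ (by linarith)
      have h3 : 0 ≤ y * R ^ Nat.find hex := by positivity
      rw [pow_succ, pow_add, ← mul_assoc, ← mul_assoc]
      have h4 : 16 ≤ R ^ k * R := by nlinarith
      nlinarith

theorem dom_sign {a b c u v w : ℝ} (hu : 9 / 10 ≤ u) (hv : |v| ≤ 11 / 10) (hw : |w| ≤ 11 / 10)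
    (hb : 4 * |b| ≤ |a|) (hc : 4 * |c| ≤ |a|) :
    (0 ≤ a → 0 ≤ a * u + b * v + c * w) ∧ (¬ 0 ≤ a → a * u + b * v + c * w ≤ 0) := by
  have h1 : |b * v| ≤ |b| * (11 / 10) := by rw [abs_mul]; gcongr
  have h2 : |c * w| ≤ |c| * (11 / 10) := by rw [abs_mul]; gcongr
  rw [abs_le] at h1 h2
  constructor
  · intro ha
    rw [abs_of_nonneg ha] at hb hc
    nlinarith
  · intro ha
    push Not at ha
    rw [abs_of_neg ha] at hb hc
    nlinarith

theorem skel_pair {a b c a' b' c' u v w : ℝ} (hu : 9 / 10 ≤ u) (hu' : u ≤ 11 / 10)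
    (hv : 9 / 10 ≤ v) (hv' : v ≤ 11 / 10) (hw : 9 / 10 ≤ w) (hw' : w ≤ 11 / 10)
    (h1 : (4 * |b| ≤ |a| ∧ 4 * |b'| ≤ |a'|) ∨ (4 * |a| ≤ |b| ∧ 4 * |a'| ≤ |b'|))
    (h2 : (4 * |c| ≤ |b| ∧ 4 * |c'| ≤ |b'|) ∨ (4 * |b| ≤ |c| ∧ 4 * |b'| ≤ |c'|))
    (h3 : (4 * |c| ≤ |a| ∧ 4 * |c'| ≤ |a'|) ∨ (4 * |a| ≤ |c| ∧ 4 * |a'| ≤ |c'|))
    (sa : 0 ≤ a ↔ 0 ≤ a') (sb : 0 ≤ b ↔ 0 ≤ b') (sc : 0 ≤ c ↔ 0 ≤ c')
    (h : (a * u + b * v + c * w) * (a' * u + b' * v + c' * w) < 0) : False := by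
  have au : |u| ≤ 11 / 10 := abs_le.2 ⟨by linarith, hu'⟩
  have av : |v| ≤ 11 / 10 := abs_le.2 ⟨by linarith, hv'⟩
  have aw : |w| ≤ 11 / 10 := abs_le.2 ⟨by linarith, hw'⟩
  have key : ∀ {x x' E E' : ℝ}, (0 ≤ x ↔ 0 ≤ x') → ((0 ≤ x → 0 ≤ E) ∧ (¬ 0 ≤ x → E ≤ 0)) →
      ((0 ≤ x' → 0 ≤ E') ∧ (¬ 0 ≤ x' → E' ≤ 0)) → 0 ≤ E * E' := by
    intro x x' E E' s h h'
    by_cases hx : 0 ≤ x
    · exact mul_nonneg (h.1 hx) (h'.1 (s.1 hx))
    · exact mul_nonneg_of_nonpos_of_nonpos (h.2 hx) (h'.2 fun e => hx (s.2 e))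
  have A : 4 * |b| ≤ |a| ∧ 4 * |b'| ≤ |a'| → 4 * |c| ≤ |a| ∧ 4 * |c'| ≤ |a'| → False :=
    fun p q => (key sa (dom_sign hu av aw p.1 q.1) (dom_sign hu av aw p.2 q.2)).not_gt h
  have B : 4 * |a| ≤ |b| ∧ 4 * |a'| ≤ |b'| → 4 * |c| ≤ |b| ∧ 4 * |c'| ≤ |b'| → False := by
    intro p q
    have := key sb (dom_sign hv au aw p.1 q.1) (dom_sign hv au aw p.2 q.2)
    exact this.not_gt (by linarith)
  have C : 4 * |a| ≤ |c| ∧ 4 * |a'| ≤ |c'| → 4 * |b| ≤ |c| ∧ 4 * |b'| ≤ |c'| → False := by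
    intro p q
    have := key sc (dom_sign hw au av p.1 q.1) (dom_sign hw au av p.2 q.2)
    exact this.not_gt (by linarith)
  have n1 := abs_nonneg a
  have n2 := abs_nonneg b
  have n3 := abs_nonneg c
  have n4 := abs_nonneg a'
  have n5 := abs_nonneg b'
  have n6 := abs_nonneg c'
  rcases h1 with h1 | h1 <;> rcases h2 with h2 | h2 <;> rcases h3 with h3 | h3
  · exact A h1 h3
  · exact A h1 ⟨by linarith [h1.1, h2.1, h3.1], by linarith [h1.2, h2.2, h3.2]⟩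
  · exact A h1 h3
  · exact C h3 h2
  · exact B h1 h2
  · exact B h1 h2
  · exact C ⟨by linarith [h1.1, h2.1, h3.1], by linarith [h1.2, h2.2, h3.2]⟩ h2
  · exact C h3 h2

/-- The point `p` is close to the skeleton point with number `s`. -/
def Near (j : ℕ) (Λ H : ℝ) (s : ℕ) (p : ℝ × ℝ × ℝ) : Prop :=
  |p.1 - Λ * val 16 j s| ≤ Λ / 100 ∧ |p.2.1 - Λ * val 256 j s| ≤ Λ / 100 ∧
    |p.2.2 - (H + Λ * val 4096 j s)| ≤ Λ / 100

theorem ratio {Λ σ x x' y y' X H : ℝ} (hΛ : 0 < Λ) (hσ : σ = 1 ∨ σ = -1) (hX : 1 ≤ X)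
    (h : |x - (H + Λ * y)| ≤ Λ / 100) (h' : |x' - (H + Λ * y')| ≤ Λ / 100)
    (hy : |σ * (y - y') - X| ≤ X / 15) :
    ∃ u, 9 / 10 ≤ u ∧ u ≤ 11 / 10 ∧ x - x' = σ * Λ * X * u := by
  have hp : 0 < Λ * X := by positivity
  rw [abs_le] at h h' hy
  refine ⟨σ * (x - x') / (Λ * X), ?_, ?_, ?_⟩
  · rw [le_div_iff₀ hp]
    rcases hσ with rfl | rfl <;> nlinarith
  · rw [div_le_iff₀ hp]
    rcases hσ with rfl | rfl <;> nlinarith
  · rcases hσ with rfl | rfl <;> field_simp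

theorem near_z {j s s' : ℕ} {Λ H : ℝ} (hΛ : 0 < Λ) (hs : s < 2 ^ j) (hs' : s' < 2 ^ j)
    (hne : s ≠ s') {p p' : ℝ × ℝ × ℝ} (h : Near j Λ H s p) (h' : Near j Λ H s' p') :
    9 / 10 * Λ ≤ |p.2.2 - p'.2.2| := by
  obtain ⟨i, -, -, σ, hσ, hv⟩ := exists_level hs hs' hne
  have h1 : (1 : ℝ) ≤ ((4096 : ℕ) : ℝ) ^ i := one_le_pow₀ (by norm_num)
  obtain ⟨u, hu, -, e⟩ := ratio hΛ hσ h1 h.2.2 h'.2.2 (hv 4096 (by norm_num))
  have h2 : |σ| = 1 := by rcases hσ with rfl | rfl <;> simp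
  rw [e, abs_mul, abs_mul, abs_mul, h2, abs_of_pos hΛ, abs_of_nonneg (by linarith),
    abs_of_nonneg (by linarith)]
  nlinarith [mul_le_mul h1 hu (by norm_num) (by linarith)]

theorem skel {j : ℕ} {Λ H : ℝ} (hΛ : 0 < Λ) (A : Finset ℕ) (hA : ∀ s ∈ A, s < 2 ^ j)
    (p : ℕ → ℝ × ℝ × ℝ) (hp : ∀ s ∈ A, Near j Λ H s (p s))
    (hs : ∀ s ∈ A, ∃ α β γ : ℝ, ∀ s' ∈ A, s' ≠ s → ev α β γ (p s') < ev α β γ (p s)) :
    A.card ≤ 64 * (j + 1) ^ 3 := by
  classical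
  choose! α β γ hs using hs
  choose a₁ ha₁ h₁ using fun s => exists_thr (x := |α s|) (abs_nonneg (β s)) (le_refl (16 : ℝ)) j
  choose a₂ ha₂ h₂ using fun s => exists_thr (x := |β s|) (abs_nonneg (γ s)) (le_refl (16 : ℝ)) j
  choose a₃ ha₃ h₃ using fun s => exists_thr (x := |α s|) (abs_nonneg (γ s))
    (show (16 : ℝ) ≤ 256 by norm_num) j
  let f : ℕ → (ℕ × ℕ × ℕ) × (Bool × Bool × Bool) × (ℕ × ℕ × ℕ) := fun s =>
    ((a₁ s, a₂ s, a₃ s), (decide (0 ≤ α s), decide (0 ≤ β s), decide (0 ≤ γ s)),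
      (bit s (a₁ s), bit s (a₂ s), bit s (a₃ s)))
  let T : Finset ((ℕ × ℕ × ℕ) × (Bool × Bool × Bool) × (ℕ × ℕ × ℕ)) :=
    (range (j + 1) ×ˢ range (j + 1) ×ˢ range (j + 1)) ×ˢ univ ×ˢ (range 2 ×ˢ range 2 ×ˢ range 2)
  have hT : T.card = 64 * (j + 1) ^ 3 := by
    simp only [T, card_product, card_range, card_univ, Fintype.card_prod, Fintype.card_bool]
    ring
  rw [← hT]
  refine card_le_card_of_injOn f (fun s _ => ?_) fun s hs1 s' hs2 e => ?_
  · have := ha₁ s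
    have := ha₂ s
    have := ha₃ s
    have := bit_le s (a₁ s)
    have := bit_le s (a₂ s)
    have := bit_le s (a₃ s)
    simp only [T, f, coe_product, Set.mem_prod, mem_coe, mem_range, mem_univ, true_and]
    omega
  by_contra hne
  simp only [f, Prod.mk.injEq, decide_eq_decide] at e
  obtain ⟨⟨e1, e2, e3⟩, ⟨s1, s2, s3⟩, b1, b2, b3⟩ := e
  obtain ⟨i, hi, hb, σ, hσ, hv⟩ := exists_level (hA s hs1) (hA s' hs2) hne
  have n1 : i ≠ a₁ s := fun e => hb (by rw [e, b1, e1])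
  have n2 : i ≠ a₂ s := fun e => hb (by rw [e, b2, e2])
  have n3 : i ≠ a₃ s := fun e => hb (by rw [e, b3, e3])
  have hX : (1 : ℝ) ≤ 16 ^ i := one_le_pow₀ (by norm_num)
  have hY : (256 : ℝ) ^ i = 16 ^ i * 16 ^ i := by rw [← mul_pow]; norm_num
  have hZ : (4096 : ℝ) ^ i = 16 ^ i * 16 ^ i * 16 ^ i := by rw [← mul_pow, ← mul_pow]; norm_num
  have v1 := hv 16 (by norm_num)
  have v2 := hv 256 (by norm_num)
  have v3 := hv 4096 (by norm_num)
  push_cast at v1 v2 v3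
  rw [hY] at v2
  rw [hZ] at v3
  obtain ⟨u, hu, hu', eu⟩ := ratio (H := 0) hΛ hσ hX (by simpa using (hp s hs1).1)
    (by simpa using (hp s' hs2).1) v1
  obtain ⟨v, hv1, hv', ev'⟩ := ratio (H := 0) hΛ hσ (by nlinarith) (by simpa using (hp s hs1).2.1)
    (by simpa using (hp s' hs2).2.1) v2
  obtain ⟨w, hw, hw', ew⟩ := ratio hΛ hσ (by nlinarith [mul_le_mul hX hX zero_le_one (by linarith)])
    (hp s hs1).2.2 (hp s' hs2).2.2 v3
  have k1 := hs s hs1 s' hs2 (Ne.symm hne)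
  have k2 := hs s' hs2 s hs1 hne
  set X : ℝ := 16 ^ i with hXdef
  have hX0 : 0 < X := by linarith
  have ab : ∀ x : ℝ, |x * X| = |x| * X := fun x => by rw [abs_mul, abs_of_pos hX0]
  have sg : ∀ x : ℝ, 0 ≤ x * X ↔ 0 ≤ x := fun x => mul_nonneg_iff_of_pos_right hX0
  refine skel_pair (a := α s) (b := β s * X) (c := γ s * X * X) (a' := α s') (b' := β s' * X)
    (c' := γ s' * X * X) hu hu' hv1 hv' hw hw' ?_ ?_ ?_ s1 (by rw [sg, sg, s2])
    (by rw [sg, sg, sg, sg, s3]) ?_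
  · simp only [ab]
    rcases lt_or_gt_of_ne n1 with h | h
    · exact Or.inl ⟨(h₁ s i hi).1 h, (h₁ s' i hi).1 (e1 ▸ h)⟩
    · exact Or.inr ⟨(h₁ s i hi).2 h, (h₁ s' i hi).2 (e1 ▸ h)⟩
  · simp only [ab]
    rcases lt_or_gt_of_ne n2 with h | h
    · have t1 := (h₂ s i hi).1 h
      have t2 := (h₂ s' i hi).1 (e2 ▸ h)
      exact Or.inl ⟨by nlinarith, by nlinarith⟩
    · have t1 := (h₂ s i hi).2 h
      have t2 := (h₂ s' i hi).2 (e2 ▸ h)
      exact Or.inr ⟨by nlinarith, by nlinarith⟩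
  · simp only [ab]
    simp only [mul_assoc, ← hY]
    rcases lt_or_gt_of_ne n3 with h | h
    · exact Or.inl ⟨(h₃ s i hi).1 h, (h₃ s' i hi).1 (e3 ▸ h)⟩
    · exact Or.inr ⟨(h₃ s i hi).2 h, (h₃ s' i hi).2 (e3 ▸ h)⟩
  · have d1 : ev (α s) (β s) (γ s) (p s) - ev (α s) (β s) (γ s) (p s') =
        σ * Λ * X * (α s * u + β s * X * v + γ s * X * X * w) := by
      unfold ev
      linear_combination α s * eu + β s * ev' + γ s * ew
    have d2 : ev (α s') (β s') (γ s') (p s) - ev (α s') (β s') (γ s') (p s') =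
        σ * Λ * X * (α s' * u + β s' * X * v + γ s' * X * X * w) := by
      unfold ev
      linear_combination α s' * eu + β s' * ev' + γ s' * ew
    have d3 := mul_neg_of_pos_of_neg (sub_pos.2 k1) (sub_neg.2 k2)
    rw [d1, d2] at d3
    by_contra hn
    push Not at hn
    have := mul_nonneg (mul_self_nonneg (σ * Λ * X)) hn
    linarith

end Pool.Agent.P.MP_e4fe5e_lc
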