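import Pool.Agent.P.MP_e4fe5e_lc.Defs

/-! Convex position via supporting functionals, and a finite table that determines it. -/

namespace Pool.Agent.P.MP_e4fe5e_lc

/-- Value of the functional with coefficients `α β γ`. -/
def ev (α β γ : ℝ) (p : ℝ × ℝ × ℝ) : ℝ := α * p.1 + β * p.2.1 + γ * p.2.2

theorem convexPosition_iff {Q : Set (ℝ × ℝ × ℝ)} (hQ : Q.Finite) :
    ConvexPosition Q ↔ ∀ q ∈ Q, ∃ α β γ : ℝ, ∀ q' ∈ Q, q' ≠ q → ev α β γ q' < ev α β γ q := by
  refine forall₂_congr fun q _ => ⟨fun h => ?_, ?_⟩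
  · obtain ⟨f, u, h1, h2⟩ := geometric_hahn_banach_closed_point (convex_convexHull ℝ _)
      ((hQ.subset Set.sdiff_subset).isClosed_convexHull ℝ) h
    have hf : ∀ p : ℝ × ℝ × ℝ, ev (f (1, 0, 0)) (f (0, 1, 0)) (f (0, 0, 1)) p = f p := by
      rintro ⟨x, y, z⟩
      have : ((x, y, z) : ℝ × ℝ × ℝ) = x • (1, 0, 0) + y • (0, 1, 0) + z • (0, 0, 1) := by simp
      rw [this, map_add, map_add, map_smul, map_smul, map_smul]
      simp [ev]; ring
    refine ⟨f (1, 0, 0), f (0, 1, 0), f (0, 0, 1), fun q' hq' hne => ?_⟩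
    rw [hf, hf]
    exact (h1 q' (subset_convexHull ℝ _ ⟨hq', hne⟩)).trans h2
  · rintro ⟨α, β, γ, h⟩ hq
    have hlin : IsLinearMap ℝ (ev α β γ) :=
      ⟨fun x y => by simp [ev]; ring, fun c x => by simp [ev]; ring⟩
    have := convexHull_min (s := Q \ {q}) (t := {w | ev α β γ w < ev α β γ q})
      (fun w hw => h w hw.1 hw.2) (convex_halfSpace_lt hlin _) hq
    exact lt_irrefl (ev α β γ q) this

/-- `p` is a convex combination of `a b c d`. -/
def In4 (p a b c d : ℝ × ℝ × ℝ) : Prop :=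
  ∃ s t u v : ℝ, 0 ≤ s ∧ 0 ≤ t ∧ 0 ≤ u ∧ 0 ≤ v ∧ s + t + u + v = 1 ∧
    p = s • a + t • b + u • c + v • d

theorem in4_of_mem {S : Set (ℝ × ℝ × ℝ)} {p : ℝ × ℝ × ℝ} (h : p ∈ convexHull ℝ S) :
    ∃ a ∈ S, ∃ b ∈ S, ∃ c ∈ S, ∃ d ∈ S, In4 p a b c d := by
  classical
  obtain ⟨ι, _, z, w, hz, hai, hw, hs, hp⟩ := eq_pos_convex_span_of_mem_convexHull h
  have hc : Fintype.card ι ≤ 4 := by
    have h1 := hai.card_le_finrank_succ
    have h2 : Module.finrank ℝ (vectorSpan ℝ (Set.range z)) ≤ Module.finrank ℝ (ℝ × ℝ × ℝ) :=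
      Submodule.finrank_le _
    have h3 : Module.finrank ℝ (ℝ × ℝ × ℝ) = 3 := by simp
    omega
  have hne : Nonempty ι := by
    by_contra hn
    rw [not_nonempty_iff] at hn
    simp at hs
  obtain ⟨i₀⟩ := hne
  obtain ⟨e⟩ : Nonempty (ι ↪ Fin 4) := Function.Embedding.nonempty_of_card_le (by simpa using hc)
  let z' : Fin 4 → ℝ × ℝ × ℝ := Function.extend e z fun _ => z i₀
  let w' : Fin 4 → ℝ := Function.extend e w fun _ => 0
  have hz' : ∀ j, z' j ∈ S := by
    intro j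
    by_cases hj : ∃ i, e i = j
    · obtain ⟨i, rfl⟩ := hj
      simp only [z', e.injective.extend_apply]
      exact hz ⟨i, rfl⟩
    · simp only [z', Function.extend_apply' _ _ _ hj]
      exact hz ⟨i₀, rfl⟩
  have hw' : ∀ j, 0 ≤ w' j := by
    intro j
    by_cases hj : ∃ i, e i = j
    · obtain ⟨i, rfl⟩ := hj
      simp only [w', e.injective.extend_apply]
      exact (hw i).le
    · simp only [w', Function.extend_apply' _ _ _ hj, le_refl]
  have h1 : ∑ i, w i = ∑ j, w' j :=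
    Fintype.sum_of_injective e e.injective _ _
      (fun j hj => by simp only [w', Function.extend_apply' _ _ _ hj])
      (fun i => by simp only [w', e.injective.extend_apply])
  have h2 : ∑ i, w i • z i = ∑ j, w' j • z' j :=
    Fintype.sum_of_injective e e.injective _ _
      (fun j hj => by simp only [w', Function.extend_apply' _ _ _ hj, zero_smul])
      (fun i => by simp only [w', z', e.injective.extend_apply])
  refine ⟨z' 0, hz' 0, z' 1, hz' 1, z' 2, hz' 2, z' 3, hz' 3, w' 0, w' 1, w' 2, w' 3,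
    hw' 0, hw' 1, hw' 2, hw' 3, ?_, ?_⟩
  · rw [← Fin.sum_univ_four, ← h1, hs]
  · rw [← hp, h2, Fin.sum_univ_four]

theorem mem_of_in4 {S : Set (ℝ × ℝ × ℝ)} {p a b c d : ℝ × ℝ × ℝ} (ha : a ∈ S) (hb : b ∈ S)
    (hc : c ∈ S) (hd : d ∈ S) (h : In4 p a b c d) : p ∈ convexHull ℝ S := by
  obtain ⟨s, t, u, v, hs, ht, hu, hv, h1, rfl⟩ := h
  have := (convex_convexHull ℝ S).sum_mem (t := Finset.univ) (w := ![s, t, u, v])
    (z := ![a, b, c, d]) (fun i _ => by fin_cases i <;> simpa) (by simpa [Fin.sum_univ_four] using h1)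
    (fun i _ => by fin_cases i <;> exact subset_convexHull ℝ S (by simpa))
  simpa [Fin.sum_univ_four] using this

/-- Orientation determinant of four points. -/
def det4 {R : Type*} [CommRing R] (a b c d : R × R × R) : R :=
  (b.1 - a.1) * ((c.2.1 - a.2.1) * (d.2.2 - a.2.2) - (c.2.2 - a.2.2) * (d.2.1 - a.2.1)) -
  (b.2.1 - a.2.1) * ((c.1 - a.1) * (d.2.2 - a.2.2) - (c.2.2 - a.2.2) * (d.1 - a.1)) +
  (b.2.2 - a.2.2) * ((c.1 - a.1) * (d.2.1 - a.2.1) - (c.2.1 - a.2.1) * (d.1 - a.1))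

theorem det4_toReal (a b c d : Pt) :
    det4 (toReal a) (toReal b) (toReal c) (toReal d) = ((det4 a b c d : ℚ) : ℝ) := by
  simp [det4, toReal]

theorem onPlane_iff (a b c d : ℝ × ℝ × ℝ) : OnPlane a b c d ↔ det4 a b c d = 0 := by
  constructor
  · rintro ⟨α, β, γ, δ, h0, h⟩
    have ha := h a (by simp)
    have hb := h b (by simp)
    have hc := h c (by simp)
    have hd := h d (by simp)
    by_contra hD
    have e1 : α * det4 a b c d = 0 := by
      unfold det4
      linear_combination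
        ((c.2.1 - a.2.1) * (d.2.2 - a.2.2) - (c.2.2 - a.2.2) * (d.2.1 - a.2.1)) * (hb - ha) -
        ((b.2.1 - a.2.1) * (d.2.2 - a.2.2) - (b.2.2 - a.2.2) * (d.2.1 - a.2.1)) * (hc - ha) +
        ((b.2.1 - a.2.1) * (c.2.2 - a.2.2) - (b.2.2 - a.2.2) * (c.2.1 - a.2.1)) * (hd - ha)
    have e2 : β * det4 a b c d = 0 := by
      unfold det4
      linear_combination
        -((c.1 - a.1) * (d.2.2 - a.2.2) - (c.2.2 - a.2.2) * (d.1 - a.1)) * (hb - ha) +
        ((b.1 - a.1) * (d.2.2 - a.2.2) - (b.2.2 - a.2.2) * (d.1 - a.1)) * (hc - ha) -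
        ((b.1 - a.1) * (c.2.2 - a.2.2) - (b.2.2 - a.2.2) * (c.1 - a.1)) * (hd - ha)
    have e3 : γ * det4 a b c d = 0 := by
      unfold det4
      linear_combination
        ((c.1 - a.1) * (d.2.1 - a.2.1) - (c.2.1 - a.2.1) * (d.1 - a.1)) * (hb - ha) -
        ((b.1 - a.1) * (d.2.1 - a.2.1) - (b.2.1 - a.2.1) * (d.1 - a.1)) * (hc - ha) +
        ((b.1 - a.1) * (c.2.1 - a.2.1) - (b.2.1 - a.2.1) * (c.1 - a.1)) * (hd - ha)
    simp only [mul_eq_zero, hD, or_false] at e1 e2 e3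
    tauto
  · intro hD
    let A : Matrix (Fin 3) (Fin 3) ℝ := Matrix.of
      ![![b.1 - a.1, b.2.1 - a.2.1, b.2.2 - a.2.2], ![c.1 - a.1, c.2.1 - a.2.1, c.2.2 - a.2.2],
        ![d.1 - a.1, d.2.1 - a.2.1, d.2.2 - a.2.2]]
    have hA : A.det = 0 := by
      rw [← hD, Matrix.det_fin_three]
      simp [A, det4]; ring
    obtain ⟨v, hv, hAv⟩ := Matrix.exists_mulVec_eq_zero_iff.2 hA
    have h0 := congrFun hAv 0
    have h1 := congrFun hAv 1
    have h2 := congrFun hAv 2
    simp [A, Matrix.mulVec, dotProduct, Fin.sum_univ_three] at h0 h1 h2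
    refine ⟨v 0, v 1, v 2, v 0 * a.1 + v 1 * a.2.1 + v 2 * a.2.2, ?_, ?_⟩
    · by_contra hn
      push Not at hn
      exact hv (by ext i; fin_cases i <;> simp [hn.1, hn.2.1, hn.2.2])
    · simp only [List.mem_cons, List.not_mem_nil, or_false]
      rintro p (rfl | rfl | rfl | rfl)
      · rfl
      · linarith
      · linarith
      · linarith

/-- Parameter of the projection of `p` to the line through `a` and `b`. -/
def segT (p a b : Pt) : ℚ :=
  ((p.1 - a.1) * (b.1 - a.1) + (p.2.1 - a.2.1) * (b.2.1 - a.2.1) +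
    (p.2.2 - a.2.2) * (b.2.2 - a.2.2)) /
  ((b.1 - a.1) * (b.1 - a.1) + (b.2.1 - a.2.1) * (b.2.1 - a.2.1) +
    (b.2.2 - a.2.2) * (b.2.2 - a.2.2))

/-- `p` lies in the nondegenerate tetrahedron `a b c d` or on the segment `a b`. -/
def Tst (p a b c d : Pt) : Prop :=
  (det4 a b c d ≠ 0 ∧ 0 ≤ det4 a b c d * det4 p b c d ∧ 0 ≤ det4 a b c d * det4 a p c d ∧
    0 ≤ det4 a b c d * det4 a b p d ∧ 0 ≤ det4 a b c d * det4 a b c p) ∨
  (0 ≤ segT p a b ∧ segT p a b ≤ 1 ∧ p.1 = a.1 + segT p a b * (b.1 - a.1) ∧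
    p.2.1 = a.2.1 + segT p a b * (b.2.1 - a.2.1) ∧ p.2.2 = a.2.2 + segT p a b * (b.2.2 - a.2.2))

instance (p a b c d : Pt) : Decidable (Tst p a b c d) := by unfold Tst; infer_instance

theorem in4_of_tst {p a b c d : Pt} (h : Tst p a b c d) :
    In4 (toReal p) (toReal a) (toReal b) (toReal c) (toReal d) := by
  rcases h with ⟨hD, h1, h2, h3, h4⟩ | ⟨h0, h1, hx, hy, hz⟩
  · have key : ∀ x : ℚ, 0 ≤ det4 a b c d * x → (0 : ℝ) ≤ ((x / det4 a b c d : ℚ) : ℝ) := by
      intro x hx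
      have : x / det4 a b c d = det4 a b c d * x / (det4 a b c d) ^ 2 := by field_simp
      rw [this]
      exact_mod_cast div_nonneg hx (sq_nonneg _)
    refine ⟨_, _, _, _, key _ h1, key _ h2, key _ h3, key _ h4, ?_, ?_⟩
    · have : det4 p b c d / det4 a b c d + det4 a p c d / det4 a b c d +
          det4 a b p d / det4 a b c d + det4 a b c p / det4 a b c d = 1 := by
        field_simp
        unfold det4; ring
      exact_mod_cast this
    · have e1 : p.1 = det4 p b c d / det4 a b c d * a.1 + det4 a p c d / det4 a b c d * b.1 +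
          det4 a b p d / det4 a b c d * c.1 + det4 a b c p / det4 a b c d * d.1 := by
        field_simp
        unfold det4; ring
      have e2 : p.2.1 = det4 p b c d / det4 a b c d * a.2.1 + det4 a p c d / det4 a b c d * b.2.1 +
          det4 a b p d / det4 a b c d * c.2.1 + det4 a b c p / det4 a b c d * d.2.1 := by
        field_simp
        unfold det4; ring
      have e3 : p.2.2 = det4 p b c d / det4 a b c d * a.2.2 + det4 a p c d / det4 a b c d * b.2.2 +
          det4 a b p d / det4 a b c d * c.2.2 + det4 a b c p / det4 a b c d * d.2.2 := by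
        field_simp
        unfold det4; ring
      refine Prod.ext ?_ (Prod.ext ?_ ?_)
      · simp only [toReal, Prod.fst_add, Prod.smul_fst, smul_eq_mul]
        exact_mod_cast e1
      · simp only [toReal, Prod.fst_add, Prod.snd_add, Prod.smul_fst, Prod.smul_snd, smul_eq_mul]
        exact_mod_cast e2
      · simp only [toReal, Prod.snd_add, Prod.smul_snd, smul_eq_mul]
        exact_mod_cast e3
  · have h0' : (0 : ℝ) ≤ segT p a b := by exact_mod_cast h0
    have h1' : ((segT p a b : ℚ) : ℝ) ≤ 1 := by exact_mod_cast h1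
    refine ⟨1 - segT p a b, segT p a b, 0, 0, by linarith, h0', le_rfl, le_rfl, by ring, ?_⟩
    refine Prod.ext ?_ (Prod.ext ?_ ?_)
    · simp only [toReal, Prod.fst_add, Prod.smul_fst, smul_eq_mul]
      have := congrArg (fun x : ℚ => (x : ℝ)) hx
      push_cast at this
      linarith
    · simp only [toReal, Prod.fst_add, Prod.snd_add, Prod.smul_fst, Prod.smul_snd, smul_eq_mul]
      have := congrArg (fun x : ℚ => (x : ℝ)) hy
      push_cast at this
      linarith
    · simp only [toReal, Prod.snd_add, Prod.smul_snd, smul_eq_mul]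
      have := congrArg (fun x : ℚ => (x : ℝ)) hz
      push_cast at this
      linarith

theorem toReal_inj : Function.Injective toReal := by
  rintro ⟨x, y, z⟩ ⟨x', y', z'⟩ h
  simpa [toReal] using h

theorem tst_seg {p a b : Pt} {t : ℝ} (h0 : 0 ≤ t) (h1 : t ≤ 1) (hpa : p ≠ a)
    (h : toReal p = (1 - t) • toReal a + t • toReal b) : Tst p a b a a := by
  have hx := congrArg Prod.fst h
  have hy := congrArg (fun q => q.2.1) h
  have hz := congrArg (fun q => q.2.2) h
  simp only [toReal, Prod.fst_add, Prod.snd_add, Prod.smul_fst, Prod.smul_snd, smul_eq_mul]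
    at hx hy hz
  have hab : (((b.1 - a.1) * (b.1 - a.1) + (b.2.1 - a.2.1) * (b.2.1 - a.2.1) +
      (b.2.2 - a.2.2) * (b.2.2 - a.2.2) : ℚ) : ℝ) ≠ 0 := by
    intro h0
    push_cast at h0
    have n1 := mul_self_nonneg ((b.1 : ℝ) - a.1)
    have n2 := mul_self_nonneg ((b.2.1 : ℝ) - a.2.1)
    have n3 := mul_self_nonneg ((b.2.2 : ℝ) - a.2.2)
    have e1 : (b.1 : ℝ) - a.1 = 0 := mul_self_eq_zero.1 (by linarith)
    have e2 : (b.2.1 : ℝ) - a.2.1 = 0 := mul_self_eq_zero.1 (by linarith)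
    have e3 : (b.2.2 : ℝ) - a.2.2 = 0 := mul_self_eq_zero.1 (by linarith)
    apply hpa
    apply toReal_inj
    refine Prod.ext ?_ (Prod.ext ?_ ?_)
    · simp only [toReal]; linear_combination hx + t * e1
    · simp only [toReal]; linear_combination hy + t * e2
    · simp only [toReal]; linear_combination hz + t * e3
  have ht : ((segT p a b : ℚ) : ℝ) = t := by
    unfold segT
    rw [Rat.cast_div, div_eq_iff hab]
    push_cast
    rw [hx, hy, hz]; ring
  refine Or.inr ⟨?_, ?_, ?_, ?_, ?_⟩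
  · have : (0 : ℝ) ≤ segT p a b := ht ▸ h0
    exact_mod_cast this
  · have : ((segT p a b : ℚ) : ℝ) ≤ 1 := ht ▸ h1
    exact_mod_cast this
  · have : (p.1 : ℝ) = a.1 + (segT p a b : ℚ) * (b.1 - a.1) := by rw [ht, hx]; ring
    exact_mod_cast this
  · have : (p.2.1 : ℝ) = a.2.1 + (segT p a b : ℚ) * (b.2.1 - a.2.1) := by rw [ht, hy]; ring
    exact_mod_cast this
  · have : (p.2.2 : ℝ) = a.2.2 + (segT p a b : ℚ) * (b.2.2 - a.2.2) := by rw [ht, hz]; ring
    exact_mod_cast this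

/-- No four distinct points of `S` have vanishing determinant. -/
def GP (S : List Pt) : Prop :=
  ∀ a ∈ S, ∀ b ∈ S, ∀ c ∈ S, ∀ d ∈ S, [a, b, c, d].Nodup → det4 a b c d ≠ 0

theorem gp_iff (S : List Pt) : (∀ a ∈ S, ∀ b ∈ S, ∀ c ∈ S, ∀ d ∈ S, [a, b, c, d].Nodup →
    ¬ OnPlane (toReal a) (toReal b) (toReal c) (toReal d)) ↔ GP S := by
  simp only [GP, onPlane_iff, det4_toReal, Rat.cast_eq_zero, ne_eq]

theorem tst_tri {S : List Pt} (hS : GP S) {T : Set Pt} (hT : ∀ q ∈ T, q ∈ S) {p a b c : Pt}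
    (hp : p ∈ S) (hpT : p ∉ T) (ha : a ∈ T) (hb : b ∈ T) (hc : c ∈ T) {s t u : ℝ} (hs : 0 ≤ s)
    (ht : 0 ≤ t) (hu : 0 ≤ u) (h1 : s + t + u = 1)
    (h : toReal p = s • toReal a + t • toReal b + u • toReal c) :
    ∃ a ∈ T, ∃ b ∈ T, ∃ c ∈ T, ∃ d ∈ T, Tst p a b c d := by
  have hpa : p ≠ a := fun e => hpT (e ▸ ha)
  have hpb : p ≠ b := fun e => hpT (e ▸ hb)
  have hpc : p ≠ c := fun e => hpT (e ▸ hc)
  have hD : det4 p a b c = 0 := by
    have : det4 (toReal p) (toReal a) (toReal b) (toReal c) = 0 := by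
      obtain rfl : s = 1 - t - u := by linarith
      rw [h]
      simp only [det4, Prod.fst_add, Prod.snd_add, Prod.smul_fst, Prod.smul_snd, smul_eq_mul]
      ring
    rw [det4_toReal] at this
    exact_mod_cast this
  have : a = b ∨ a = c ∨ b = c := by
    by_contra hn
    push Not at hn
    exact hS p hp a (hT a ha) b (hT b hb) c (hT c hc)
      (by simp [hpa, hpb, hpc, hn.1, hn.2.1, hn.2.2]) hD
  rcases this with rfl | rfl | rfl
  · refine ⟨a, ha, c, hc, a, ha, a, ha, tst_seg hu (by linarith) hpa ?_⟩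
    rw [h, ← add_smul]; congr 2; linarith
  · refine ⟨a, ha, b, hb, a, ha, a, ha, tst_seg ht (by linarith) hpa ?_⟩
    rw [h, add_right_comm, ← add_smul]; congr 2; linarith
  · refine ⟨a, ha, b, hb, a, ha, a, ha, tst_seg (t := t + u) (by linarith) (by linarith) hpa ?_⟩
    rw [h, add_assoc, ← add_smul]; congr 2; linarith

theorem tst_of_in4 {S : List Pt} (hS : GP S) {T : Set Pt} (hT : ∀ q ∈ T, q ∈ S) {p a b c d : Pt}
    (hp : p ∈ S) (hpT : p ∉ T) (ha : a ∈ T) (hb : b ∈ T) (hc : c ∈ T) (hd : d ∈ T)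
    (h : In4 (toReal p) (toReal a) (toReal b) (toReal c) (toReal d)) :
    ∃ a ∈ T, ∃ b ∈ T, ∃ c ∈ T, ∃ d ∈ T, Tst p a b c d := by
  obtain ⟨s, t, u, v, hs, ht, hu, hv, h1, h⟩ := h
  by_cases hD : det4 a b c d = 0
  · have : a = b ∨ a = c ∨ a = d ∨ b = c ∨ b = d ∨ c = d := by
      by_contra hn
      push Not at hn
      exact hS a (hT a ha) b (hT b hb) c (hT c hc) d (hT d hd)
        (by simp [hn.1, hn.2.1, hn.2.2.1, hn.2.2.2.1, hn.2.2.2.2.1, hn.2.2.2.2.2]) hD
    rcases this with rfl | rfl | rfl | rfl | rfl | rfl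
    · exact tst_tri hS hT hp hpT ha hc hd (add_nonneg hs ht) hu hv h1 (by rw [h]; module)
    · exact tst_tri hS hT hp hpT ha hb hd (add_nonneg hs hu) ht hv (by linarith)
        (by rw [h]; module)
    · exact tst_tri hS hT hp hpT ha hb hc (add_nonneg hs hv) ht hu (by linarith)
        (by rw [h]; module)
    · exact tst_tri hS hT hp hpT ha hb hd hs (add_nonneg ht hu) hv (by linarith)
        (by rw [h]; module)
    · exact tst_tri hS hT hp hpT ha hb hc hs (add_nonneg ht hv) hu (by linarith)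
        (by rw [h]; module)
    · exact tst_tri hS hT hp hpT ha hb hc hs ht (add_nonneg hu hv) (by linarith)
        (by rw [h]; module)
  · refine ⟨a, ha, b, hb, c, hc, d, hd, Or.inl ⟨hD, ?_, ?_, ?_, ?_⟩⟩
    all_goals
      rw [← Rat.cast_nonneg (K := ℝ), Rat.cast_mul, ← det4_toReal, ← det4_toReal]
      obtain rfl : s = 1 - t - u - v := by linarith
    · have : det4 (toReal p) (toReal b) (toReal c) (toReal d) =
          (1 - t - u - v) * det4 (toReal a) (toReal b) (toReal c) (toReal d) := by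
        rw [h]
        simp only [det4, Prod.fst_add, Prod.snd_add, Prod.smul_fst, Prod.smul_snd, smul_eq_mul]
        ring
      rw [this, mul_left_comm]
      exact mul_nonneg hs (mul_self_nonneg _)
    · have : det4 (toReal a) (toReal p) (toReal c) (toReal d) =
          t * det4 (toReal a) (toReal b) (toReal c) (toReal d) := by
        rw [h]
        simp only [det4, Prod.fst_add, Prod.snd_add, Prod.smul_fst, Prod.smul_snd, smul_eq_mul]
        ring
      rw [this, mul_left_comm]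
      exact mul_nonneg ht (mul_self_nonneg _)
    · have : det4 (toReal a) (toReal b) (toReal p) (toReal d) =
          u * det4 (toReal a) (toReal b) (toReal c) (toReal d) := by
        rw [h]
        simp only [det4, Prod.fst_add, Prod.snd_add, Prod.smul_fst, Prod.smul_snd, smul_eq_mul]
        ring
      rw [this, mul_left_comm]
      exact mul_nonneg hu (mul_self_nonneg _)
    · have : det4 (toReal a) (toReal b) (toReal c) (toReal p) =
          v * det4 (toReal a) (toReal b) (toReal c) (toReal d) := by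
        rw [h]
        simp only [det4, Prod.fst_add, Prod.snd_add, Prod.smul_fst, Prod.smul_snd, smul_eq_mul]
        ring
      rw [this, mul_left_comm]
      exact mul_nonneg hv (mul_self_nonneg _)

theorem convexPosition_iff_tst {S : List Pt} (hS : GP S) {Q : Finset Pt} (hQ : ∀ q ∈ Q, q ∈ S) :
    ConvexPosition (toReal '' Q) ↔ ∀ p ∈ Q, ∀ a ∈ Q, ∀ b ∈ Q, ∀ c ∈ Q, ∀ d ∈ Q,
      a ≠ p → b ≠ p → c ≠ p → d ≠ p → ¬ Tst p a b c d := by
  constructor
  · intro h p hp a ha b hb c hc d hd hap hbp hcp hdp ht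
    have m : ∀ x ∈ Q, x ≠ p → toReal x ∈ toReal '' Q \ {toReal p} := fun x hx hne =>
      ⟨⟨x, hx, rfl⟩, fun e => hne (toReal_inj e)⟩
    exact h _ ⟨p, hp, rfl⟩
      (mem_of_in4 (m a ha hap) (m b hb hbp) (m c hc hcp) (m d hd hdp) (in4_of_tst ht))
  · rintro h _ ⟨p, hp, rfl⟩ hm
    obtain ⟨_, ⟨⟨a, ha, rfl⟩, ha'⟩, _, ⟨⟨b, hb, rfl⟩, hb'⟩, _, ⟨⟨c, hc, rfl⟩, hc'⟩, _,
      ⟨⟨d, hd, rfl⟩, hd'⟩, h4⟩ := in4_of_mem hm
    have m : ∀ x : Pt, toReal x ∉ ({toReal p} : Set _) → x ≠ p := fun x hx e => hx (by simp [e])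
    obtain ⟨a, ha, b, hb, c, hc, d, hd, ht⟩ := tst_of_in4 hS (T := {x | x ∈ Q ∧ x ≠ p})
      (fun q hq => hQ q hq.1) (hQ p hp) (fun hx => hx.2 rfl) ⟨ha, m a ha'⟩ ⟨hb, m b hb'⟩
      ⟨hc, m c hc'⟩ ⟨hd, m d hd'⟩ h4
    exact h p hp a ha.1 b hb.1 c hc.1 d hd.1 ha.2 hb.2 hc.2 hd.2 ht

end Pool.Agent.P.MP_e4fe5e_lc
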