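import Pool.Agent.P.MP_e4fe5e_lc.Comp

/-! Polynomial running time of the composition, and short summaries of instances. -/

namespace Pool.Agent.P.MP_e4fe5e_lc

open Pool.Agent.Lib.PolyTime

variable {α β γ : Type} [N487b59b3 α] [N487b59b3 β] [N487b59b3 γ]

@[fun_prop] theorem pt_prodL {l : α → List β} {l' : α → List γ} (hl : PT l) (hl' : PT l') :
    PT fun a => prodL (l a) (l' a) := by
  unfold prodL; fun_prop

theorem pt_val' (R : ℕ) : PT fun p : List Bool × ℕ => val R p.1.length p.2 := by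
  unfold val; fun_prop

@[fun_prop] theorem pt_val (R : ℕ) {j n : α → ℕ} (hj : PT j) (hj' : Small j) (hn : PT n) :
    PT fun a => val R (j a) (n a) :=
  ((pt_val' R).comp (g := fun a => (List.replicate (j a) true, n a)) (by fun_prop)).congr
    fun a => by simp

@[fun_prop] theorem pt_sx {s : α → Site} (hs : PT s) : PT fun a => sx (s a) := by
  unfold sx ox; fun_prop

@[fun_prop] theorem pt_sy {s : α → Site} (hs : PT s) : PT fun a => sy (s a) := by
  unfold sy oy; fun_prop

@[fun_prop] theorem pt_tapOf {φ : α → CNF} {r c : α → ℕ} (hφ : PT φ) (hr : PT r) (hc : PT c) :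
    PT fun a => tapOf (φ a) (r a) (c a) := by
  unfold tapOf vars; fun_prop

@[fun_prop] theorem pt_sd {φ : α → CNF} {s : α → Site} (hφ : PT φ) (hs : PT s) :
    PT fun a => sd (tapOf (φ a)) (s a) := by
  have : PTP fun a => Dis (tapOf (φ a)) (s a) := by unfold Dis; fun_prop
  unfold sd dp; fun_prop

@[fun_prop] theorem pt_toQ {p : α → ℤ × ℤ × ℤ} (hp : PT p) : PT fun a => toQ (p a) := by
  unfold toQ; fun_prop

@[fun_prop] theorem pt_pertZ {M : α → ℕ} {q : α → (ℤ × ℤ × ℤ) × ℕ} (hM : PT M) (hq : PT q) :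
    PT fun a => pertZ (M a) (q a) := by
  unfold pertZ; fun_prop

@[fun_prop] theorem pt_perturb {L : α → List (ℤ × ℤ × ℤ)} (hL : PT L) :
    PT fun a => perturb (L a) := by
  unfold perturb; fun_prop

@[fun_prop] theorem ptp_rem {N : α → ℕ} {s : α → Site} (hN : PT N) (hs : PT s) :
    PTP fun a => Rem (N a) (s a) := by
  unfold Rem; fun_prop

@[fun_prop] theorem pt_pW {N j : α → ℕ} (hN : PT N) (hj : PT j) : PT fun a => pW (N a) (j a) := by
  unfold pW; fun_prop

@[fun_prop] theorem small_pW {N j : α → ℕ} (hN : Small N) (hj : Small j) :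
    Small fun a => pW (N a) (j a) := by
  unfold pW; fun_prop

@[fun_prop] theorem pt_pS {N j : α → ℕ} (hN : PT N) (hj : PT j) (hj' : Small j) :
    PT fun a => pS (N a) (j a) := by
  unfold pS; fun_prop

@[fun_prop] theorem pt_pL {N j : α → ℕ} (hN : PT N) (hj : PT j) (hj' : Small j) :
    PT fun a => pL (N a) (j a) := by
  unfold pL; fun_prop

@[fun_prop] theorem pt_basePos {W M : α → ℕ} {l : α → (Bool × Bool) × ℕ} (hW : PT W) (hM : PT M)
    (hl : PT l) : PT fun a => basePos (W a) (M a) (l a) := by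
  unfold basePos sg; fun_prop

@[fun_prop] theorem pt_clPos {j S Λ H c : α → ℕ} {s : α → Site} {d : α → ℤ} (hj : PT j)
    (hj' : Small j) (hS : PT S) (hΛ : PT Λ) (hH : PT H) (hc : PT c) (hs : PT s) (hd : PT d) :
    PT fun a => clPos (j a) (S a) (Λ a) (H a) (c a) (s a) (d a) := by
  unfold clPos; fun_prop

@[fun_prop] theorem pt_baseLabs {W : α → ℕ} (hW : PT W) (hW' : Small W) :
    PT fun a => baseLabs (W a) := by
  unfold baseLabs; fun_prop

@[fun_prop] theorem pt_clLabs {N t : α → ℕ} (hN : PT N) (hN' : Small N) (ht : PT t)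
    (ht' : Small t) : PT fun a => clLabs (N a) (t a) := by
  unfold clLabs; fun_prop

theorem pt_pre' : PT fun p : List Bool × List Bool × List CNF =>
    pre p.1.length p.2.1.length p.2.2 := by
  unfold pre
  fun_prop

@[fun_prop] theorem pt_comp {N : α → ℕ} {φs : α → List CNF} (hN : PT N) (hN' : Small N)
    (hφ : PT φs) : PT fun a => comp (N a) (φs a) := by
  have : PT fun a => pre (N a) (φs a).length.size (φs a) :=
    (pt_pre'.comp (g := fun a => (List.replicate (N a) true,
      List.replicate (φs a).length.size true, φs a)) (by fun_prop)).congr fun a => by simp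
  unfold comp pK pW; fun_prop

@[fun_prop] theorem pt_det4 {a b c d : α → Pt} (ha : PT a) (hb : PT b) (hc : PT c)
    (hd : PT d) : PT fun x => det4 (a x) (b x) (c x) (d x) := by
  unfold det4; fun_prop

@[fun_prop] theorem pt_segT {a b c : α → Pt} (ha : PT a) (hb : PT b) (hc : PT c) :
    PT fun x => segT (a x) (b x) (c x) := by
  unfold segT; fun_prop

@[fun_prop] theorem ptp_tst {p a b c d : α → Pt} (hp : PT p) (ha : PT a) (hb : PT b) (hc : PT c)
    (hd : PT d) : PTP fun x => Tst (p x) (a x) (b x) (c x) (d x) := by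
  unfold Tst; fun_prop

/-- All five-tuples of numbers below `m`. -/
def tup (m : ℕ) : List (ℕ × ℕ × ℕ × ℕ × ℕ) :=
  prodL (List.range m) (prodL (List.range m) (prodL (List.range m)
    (prodL (List.range m) (List.range m))))

/-- The test on five points given by their numbers. -/
def tstI (S : List Pt) (x : ℕ × ℕ × ℕ × ℕ × ℕ) : Bool :=
  decide (Tst (S.getD x.1 0) (S.getD x.2.1 0) (S.getD x.2.2.1 0) (S.getD x.2.2.2.1 0)
    (S.getD x.2.2.2.2 0))

/-- A summary of an instance that determines the answer. -/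
def summ (I : Instance) : ℕ × ℕ × List Bool :=
  (I.1.length, min I.2 (I.1.length + 1), (tup I.1.length).map (tstI I.1))

@[fun_prop] theorem pt_summ {I : α → Instance} (hI : PT I) : PT fun a => summ (I a) := by
  unfold summ tup tstI; fun_prop

theorem sz_summ (I : Instance) : sz (summ I) ≤ 4 * I.1.length + 4 + 3 * I.1.length ^ 5 := by
  have h1 := sz_le_self I.1.length
  have h2 := (sz_le_self _).trans (min_le_right I.2 (I.1.length + 1))
  have h3 : ∀ {β γ : Type} (l : List β) (l' : List γ), (prodL l l').length = l.length * l'.length :=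
    fun l l' => List.length_product l l'
  have h4 : (tup I.1.length).length = I.1.length ^ 5 := by
    simp only [tup, h3, List.length_range]; ring
  simp only [summ, sz_pair, sz_str, List.length_map, h4]
  omega

theorem yes_iff {I : Instance} (h : Valid I) : Yes I ↔ ∃ J : Finset ℕ, (∀ i ∈ J, i < I.1.length) ∧
    J.card = I.2 ∧ ∀ p ∈ J, ∀ a ∈ J, ∀ b ∈ J, ∀ c ∈ J, ∀ d ∈ J,
      a ≠ p → b ≠ p → c ≠ p → d ≠ p → tstI I.1 (p, a, b, c, d) = false := by
  classical
  obtain ⟨S, k⟩ := I
  obtain ⟨hn, hg, -⟩ := h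
  rw [gp_iff] at hg
  dsimp only at hn hg ⊢
  have inj : ∀ i < S.length, ∀ j < S.length, S.getD i 0 = S.getD j 0 → i = j := by
    intro i hi j hj e
    rwa [List.getD_eq_getElem _ _ hi, List.getD_eq_getElem _ _ hj, hn.getElem_inj_iff] at e
  have mem : ∀ J : Finset ℕ, (∀ i ∈ J, i < S.length) → ∀ q ∈ J.image (S.getD · 0), q ∈ S := by
    intro J hJ q hq
    obtain ⟨i, hi, rfl⟩ := Finset.mem_image.1 hq
    rw [List.getD_eq_getElem _ _ (hJ i hi)]
    exact List.getElem_mem _
  have key : ∀ J : Finset ℕ, (∀ i ∈ J, i < S.length) →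
      (ConvexPosition (toReal '' (J.image (S.getD · 0))) ↔
      ∀ p ∈ J, ∀ a ∈ J, ∀ b ∈ J, ∀ c ∈ J, ∀ d ∈ J,
        a ≠ p → b ≠ p → c ≠ p → d ≠ p → tstI S (p, a, b, c, d) = false) := by
    intro J hJ
    rw [convexPosition_iff_tst hg (mem J hJ)]
    simp only [Finset.forall_mem_image, tstI, decide_eq_false_iff_not]
    have e : ∀ a ∈ J, ∀ p ∈ J, S.getD a 0 ≠ S.getD p 0 ↔ a ≠ p := fun a ha p hp =>
      not_congr ⟨inj a (hJ a ha) p (hJ p hp), fun h => by rw [h]⟩
    refine forall₂_congr fun p hp => forall₂_congr fun a ha => forall₂_congr fun b hb =>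
      forall₂_congr fun c hc => forall₂_congr fun d hd => ?_
    rw [e a ha p hp, e b hb p hp, e c hc p hp, e d hd p hp]
  have card : ∀ J : Finset ℕ, (∀ i ∈ J, i < S.length) → (J.image (S.getD · 0)).card = J.card :=
    fun J hJ => Finset.card_image_of_injOn fun l hl l' hl' => inj l (hJ l hl) l' (hJ l' hl')
  constructor
  · rintro ⟨Q, hQ, hc, hp⟩
    have hJ : ∀ l ∈ (Finset.range S.length).filter (S.getD · 0 ∈ Q), l < S.length := fun l hl =>
      Finset.mem_range.1 (Finset.mem_filter.1 hl).1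
    have : ((Finset.range S.length).filter (S.getD · 0 ∈ Q)).image (S.getD · 0) = Q := by
      ext q
      simp only [Finset.mem_image, Finset.mem_filter, Finset.mem_range]
      refine ⟨by rintro ⟨l, hl, rfl⟩; exact hl.2, fun hq => ?_⟩
      obtain ⟨i, hi, rfl⟩ := List.getElem_of_mem (hQ q hq)
      exact ⟨i, ⟨hi, by rwa [List.getD_eq_getElem _ _ hi]⟩, List.getD_eq_getElem _ _ hi⟩
    exact ⟨_, hJ, by rw [← card _ hJ, this, hc], (key _ hJ).1 (by rwa [this])⟩
  · rintro ⟨J, hJ, hc, hs⟩
    exact ⟨J.image (S.getD · 0), mem J hJ, by rw [card J hJ, hc], (key J hJ).2 hs⟩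

theorem yes_of_summ {I I' : Instance} (h : Valid I) (h' : Valid I') (e : summ I = summ I')
    (hy : Yes I) : Yes I' := by
  simp only [summ, Prod.mk.injEq] at e
  obtain ⟨e1, e2, e3⟩ := e
  obtain ⟨J, hJ, hc, ht⟩ := (yes_iff h).1 hy
  have hk : J.card ≤ I.1.length := by
    simpa using Finset.card_le_card (show J ⊆ Finset.range I.1.length from
      fun i hi => Finset.mem_range.2 (hJ i hi))
  refine (yes_iff h').2 ⟨J, e1 ▸ hJ, by omega, fun p hp a ha b hb c hc d hd h1 h2 h3 h4 => ?_⟩
  rw [← e1, List.map_inj_left] at e3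
  rw [← e3 _ (by simp [tup, mem_prodL, hJ, hp, ha, hb, hc, hd])]
  exact ht p hp a ha b hb c hc d hd h1 h2 h3 h4

end Pool.Agent.P.MP_e4fe5e_lc
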